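import Mathlib

set_option autoImplicit false

open Filter Topology

namespace Pool.Agent.Q265.SC

/-- The class `ℳ`: nonnegative non-decreasing functions on `[0, ∞)` that tend to `0` at `0+`. -/
def IsModulus (ω : ℝ → ℝ) : Prop :=
  (∀ t, 0 ≤ t → 0 ≤ ω t) ∧ MonotoneOn ω (Set.Ici 0) ∧ Tendsto ω (𝓝[>] 0) (𝓝 0)

/-- `f` is `ω`-semiconvex on `G`. -/
def Semiconvex {E : Type*} [NormedAddCommGroup E] [NormedSpace ℝ E] (ω : ℝ → ℝ) (G : Set E)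
    (f : E → ℝ) : Prop :=
  ContinuousOn f G ∧ ∀ x ∈ G, ∀ y ∈ G, ∀ l : ℝ, 0 ≤ l → l ≤ 1 →
    f (l • x + (1 - l) • y) ≤ l * f x + (1 - l) * f y + l * (1 - l) * ‖x - y‖ * ω ‖x - y‖

/-- `f` is `ω`-semiconcave on `G`: `-f` is `ω`-semiconvex. -/
def Semiconcave {E : Type*} [NormedAddCommGroup E] [NormedSpace ℝ E] (ω : ℝ → ℝ) (G : Set E)
    (f : E → ℝ) : Prop :=
  Semiconvex ω G (fun x => -f x)

/-- `f ∈ C^{1,ω}(G)`: `f` is Frechet differentiable at every point of (the open set) `G` and for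
some `K > 0` one has `‖f'(x) - f'(y)‖ ≤ K ω(‖x - y‖)` for all `x, y ∈ G`. -/
def InC1 {E : Type*} [NormedAddCommGroup E] [NormedSpace ℝ E] (ω : ℝ → ℝ) (G : Set E)
    (f : E → ℝ) : Prop :=
  (∀ x ∈ G, DifferentiableAt ℝ f x) ∧
    ∃ K : ℝ, 0 < K ∧ ∀ x ∈ G, ∀ y ∈ G, ‖fderiv ℝ f x - fderiv ℝ f y‖ ≤ K * ω ‖x - y‖

/-- `G` is cone-free: it contains no translate of a convex cone with nonempty interior. -/
def ConeFree {E : Type*} [NormedAddCommGroup E] [NormedSpace ℝ E] (G : Set E) : Prop :=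
  ¬ ∃ (a : E) (C : Set E), Convex ℝ C ∧ (∀ x ∈ C, ∀ l : ℝ, 0 < l → l • x ∈ C) ∧
    (interior C).Nonempty ∧ ∀ x ∈ C, a + x ∈ G

end Pool.Agent.Q265.SC
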