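import Mathlib
import Pool.Agent.Q265.SC.Defs

set_option autoImplicit false

open Filter Topology Set
open scoped InnerProductSpace

namespace Pool.Agent.Q265.SC

/-- second difference of a function of one variable -/
lemma second_diff (g g' : ℝ → ℝ) (hg : ∀ t, HasDerivAt g (g' t) t) (M : ℝ)
    (hM : ∀ s t, s ∈ Icc (0:ℝ) 1 → t ∈ Icc (0:ℝ) 1 → |g' s - g' t| ≤ M) (l : ℝ) (hl0 : 0 ≤ l)
    (hl1 : l ≤ 1) : |g l - l * g 1 - (1 - l) * g 0| ≤ l * (1 - l) * M := by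
  rcases eq_or_lt_of_le hl0 with h | h0
  · rw [← h]; simp
  rcases eq_or_lt_of_le hl1 with h | h1
  · rw [h]; simp
  obtain ⟨s, hs, hs2⟩ := exists_hasDerivAt_eq_slope g g' h1
    (fun x _ => (hg x).continuousAt.continuousWithinAt) (fun x _ => hg x)
  obtain ⟨t, ht, ht2⟩ := exists_hasDerivAt_eq_slope g g' h0
    (fun x _ => (hg x).continuousAt.continuousWithinAt) (fun x _ => hg x)
  have h2 := hM s t ⟨by linarith [hs.1], hs.2.le⟩ ⟨ht.1.le, by linarith [ht.2]⟩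
  have h3 : g 1 - g l = g' s * (1 - l) := by
    rw [hs2]; field_simp [show (1 - l) ≠ 0 by linarith]
  have h4 : g l - g 0 = g' t * l := by
    rw [ht2]; field_simp; ring
  have h5 : g l - l * g 1 - (1 - l) * g 0 = -(l * (1 - l) * (g' s - g' t)) := by
    have : g l - l * g 1 - (1 - l) * g 0 = (1 - l) * (g l - g 0) - l * (g 1 - g l) := by ring
    rw [this, h3, h4]; ring
  rw [h5, abs_neg, abs_mul, abs_of_nonneg (mul_nonneg hl0 (by linarith))]
  exact mul_le_mul_of_nonneg_left h2 (mul_nonneg hl0 (by linarith))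

lemma osc_of_deriv (g' g'' : ℝ → ℝ) (M : ℝ) (hg : ∀ t, HasDerivAt g' (g'' t) t)
    (hM : ∀ t ∈ Icc (0:ℝ) 1, |g'' t| ≤ M) (s t : ℝ) (hs : s ∈ Icc (0:ℝ) 1)
    (ht : t ∈ Icc (0:ℝ) 1) : |g' s - g' t| ≤ M := by
  have h1 := (convex_Icc (0:ℝ) 1).norm_image_sub_le_of_norm_hasDerivWithin_le
    (f := g') (f' := g'') (C := M) (fun x _ => (hg x).hasDerivWithinAt)
    (fun x hx => by rw [Real.norm_eq_abs]; exact hM x hx) ht hs
  rw [Real.norm_eq_abs, Real.norm_eq_abs] at h1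
  have hM0 : 0 ≤ M := (abs_nonneg _).trans (hM s hs)
  have h2 : |s - t| ≤ 1 := by
    rw [abs_le]; constructor <;> linarith [hs.1, hs.2, ht.1, ht.2]
  nlinarith

/-- a cut-off function with its bounds -/
lemma exists_cutoff : ∃ (χ χ' χ'' : ℝ → ℝ) (c : ℝ), 1 ≤ c ∧ (∀ t, HasDerivAt χ (χ' t) t) ∧
    (∀ t, HasDerivAt χ' (χ'' t) t) ∧ (∀ t, |χ t| ≤ c) ∧ (∀ t, |χ' t| ≤ c) ∧ (∀ t, |χ'' t| ≤ c) ∧
    (∀ t, t ∉ Ioo (1:ℝ) 4 → χ t = 0 ∧ χ' t = 0 ∧ χ'' t = 0) ∧
    (∀ᶠ t in 𝓝 ((5:ℝ) / 2), χ t = 1) := by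
  let b : ContDiffBump ((5:ℝ) / 2) := ⟨1 / 2, 1, by norm_num, by norm_num⟩
  have hb2 : ContDiff ℝ 2 (b : ℝ → ℝ) := b.contDiff
  have hd : Differentiable ℝ (b : ℝ → ℝ) := hb2.differentiable (by norm_num)
  have hb1 : ContDiff ℝ 1 (deriv (b : ℝ → ℝ)) := by
    have : ContDiff ℝ (1 + 1) (b : ℝ → ℝ) := hb2
    exact (contDiff_succ_iff_deriv.1 this).2.2
  have hd1 : Differentiable ℝ (deriv (b : ℝ → ℝ)) := hb1.differentiable (by norm_num)
  have hb0 : Continuous (deriv (deriv (b : ℝ → ℝ))) := hb1.continuous_deriv (by norm_num)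
  have hs0 : HasCompactSupport (b : ℝ → ℝ) := b.hasCompactSupport
  have hs1 : HasCompactSupport (deriv (b : ℝ → ℝ)) := hs0.deriv
  have hs2 : HasCompactSupport (deriv (deriv (b : ℝ → ℝ))) := hs1.deriv
  obtain ⟨c0, hc0⟩ := hs0.exists_bound_of_continuous hb2.continuous
  obtain ⟨c1, hc1⟩ := hs1.exists_bound_of_continuous hb1.continuous
  obtain ⟨c2, hc2⟩ := hs2.exists_bound_of_continuous hb0
  have hsupp : tsupport (b : ℝ → ℝ) ⊆ Ioo 1 4 := by
    rw [b.tsupport_eq]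
    intro x hx
    rw [Metric.mem_closedBall, Real.dist_eq, abs_le] at hx
    have h1 : b.rOut = 1 := rfl
    rw [h1] at hx
    constructor <;> linarith [hx.1, hx.2]
  refine ⟨b, deriv b, deriv (deriv b), max 1 (max c0 (max c1 c2)), le_max_left _ _,
    fun t => (hd t).hasDerivAt, fun t => (hd1 t).hasDerivAt, fun t => ?_, fun t => ?_, fun t => ?_,
    fun t ht => ?_, ?_⟩
  · exact ((hc0 t).trans (le_max_left _ _)).trans (le_max_right _ _)
  · exact ((hc1 t).trans (le_max_left _ _)).trans ((le_max_right _ _).trans (le_max_right _ _))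
  · exact ((hc2 t).trans (le_max_right _ _)).trans ((le_max_right _ _).trans (le_max_right _ _))
  · have h1 : t ∉ tsupport (b : ℝ → ℝ) := fun h => ht (hsupp h)
    have h2 : t ∉ tsupport (deriv (b : ℝ → ℝ)) := fun h => h1 (tsupport_deriv_subset (𝕜 := ℝ) h)
    have h3 : t ∉ tsupport (deriv (deriv (b : ℝ → ℝ))) := fun h =>
      h2 (tsupport_deriv_subset (𝕜 := ℝ) h)
    exact ⟨image_eq_zero_of_notMem_tsupport h1, image_eq_zero_of_notMem_tsupport h2,
      image_eq_zero_of_notMem_tsupport h3⟩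
  · have h1 : Metric.closedBall ((5:ℝ) / 2) (1 / 2) ∈ 𝓝 ((5:ℝ) / 2) :=
      Metric.closedBall_mem_nhds _ (by norm_num)
    filter_upwards [h1] with t ht
    exact b.one_of_mem_closedBall ht

end Pool.Agent.Q265.SC
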