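import Mathlib
import Pool.Agent.Q265.SC.Defs

set_option autoImplicit false

open Filter Topology Set
open scoped InnerProductSpace Pointwise

namespace Pool.Agent.Q265.SC

variable {E : Type*} [NormedAddCommGroup E] [InnerProductSpace ℝ E] [FiniteDimensional ℝ E]

/-- a cone-free convex open set is thin in some direction -/
lemma exists_thin (G : Set E) (hGo : IsOpen G) (hGc : Convex ℝ G) (h0 : (0:E) ∈ G)
    (hcf : ConeFree G) : ∃ u : E, ‖u‖ = 1 ∧ ∀ ε : ℝ, 0 < ε → ∃ Y0 : ℝ, 0 < Y0 ∧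
      ∀ Y, Y0 ≤ Y → ∀ z ∈ G, ‖z‖ ≤ 2 * Y → |⟪u, z⟫_ℝ| ≤ ε * Y := by
  classical
  set C : Set E := {c | ∀ t : ℝ, 0 ≤ t → t • c ∈ closure G} with hC
  have hCc : Convex ℝ C := by
    intro x hx y hy a b ha hb hab t ht
    have h1 := hGc.closure (hx t ht) (hy t ht) ha hb hab
    convert h1 using 1
    rw [smul_add, smul_comm t a x, smul_comm t b y]
  have h0C : (0:E) ∈ C := fun t _ => by rw [smul_zero]; exact subset_closure h0
  have hspan : Submodule.span ℝ C ≠ ⊤ := by
    intro htop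
    apply hcf
    have haff : affineSpan ℝ C = ⊤ := by
      rw [AffineSubspace.affineSpan_eq_top_iff_vectorSpan_eq_top_of_nonempty ℝ E E ⟨0, h0C⟩]
      rw [vectorSpan_eq_span_vsub_set_right ℝ h0C]
      simpa using htop
    have hint : (interior C).Nonempty := (hCc.interior_nonempty_iff_affineSpan_eq_top).2 haff
    refine ⟨0, interior C, hCc.interior, ?_, by rwa [interior_interior], ?_⟩
    · intro x hx l hl
      have hsub : l • interior C ⊆ C := by
        rintro _ ⟨y, hy, rfl⟩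
        intro t ht
        have := interior_subset hy (t * l) (by positivity)
        rwa [mul_smul] at this
      have hopen : IsOpen (l • interior C) := isOpen_interior.smul₀ hl.ne'
      exact interior_maximal hsub hopen (Set.smul_mem_smul_set hx)
    · intro x hx
      rw [zero_add]
      have h1 : interior C ⊆ interior (closure G) := by
        refine interior_mono fun c hc => ?_
        have := hc 1 zero_le_one
        rwa [one_smul] at this
      have h2 := h1 hx
      rw [hGc.interior_closure_eq_interior_of_nonempty_interior (by rw [hGo.interior_eq]; exact ⟨0, h0⟩),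
        hGo.interior_eq] at h2
      exact h2
  -- a direction orthogonal to `C`
  have horth : (Submodule.span ℝ C)ᗮ ≠ ⊥ := by
    intro h
    exact hspan ((Submodule.orthogonal_eq_bot_iff).1 h)
  obtain ⟨v, hv, hv0⟩ := (Submodule.ne_bot_iff _).1 horth
  have hvn : 0 < ‖v‖ := norm_pos_iff.2 hv0
  refine ⟨‖v‖⁻¹ • v, by rw [norm_smul, norm_inv, norm_norm, inv_mul_cancel₀ hvn.ne'], ?_⟩
  intro ε hε
  by_contra hcon
  push Not at hcon
  choose Y hY z hz hz2 hz3 using fun m : ℕ => hcon (m + 1) (by positivity)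
  have hYpos : ∀ m, 0 < Y m := fun m => lt_of_lt_of_le (by positivity) (hY m)
  -- compactness
  have hball : ∀ m, (Y m)⁻¹ • z m ∈ Metric.closedBall (0:E) 2 := by
    intro m
    rw [mem_closedBall_zero_iff, norm_smul, norm_inv, Real.norm_of_nonneg (hYpos m).le,
      inv_mul_le_iff₀ (hYpos m)]
    have := hz2 m
    linarith
  obtain ⟨c, -, φ, hφ, hlim⟩ := (isCompact_closedBall (0:E) 2).tendsto_subseq hball
  have hcC : c ∈ C := by
    intro t ht
    have h1 : Tendsto (fun m => t • ((Y (φ m))⁻¹ • z (φ m))) atTop (𝓝 (t • c)) :=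
      hlim.const_smul t
    refine mem_closure_of_tendsto h1 ?_
    obtain ⟨m0, hm0⟩ := exists_nat_ge t
    filter_upwards [eventually_ge_atTop m0] with m hm
    have h2 : t ≤ Y (φ m) := by
      have h3 : (m:ℝ) ≤ (φ m : ℕ) := by exact_mod_cast hφ.id_le m
      have h4 : (m0:ℝ) ≤ m := by exact_mod_cast hm
      have := hY (φ m)
      linarith
    rw [smul_smul]
    have h5 : 0 ≤ t * (Y (φ m))⁻¹ := mul_nonneg ht (inv_nonneg.2 (hYpos _).le)
    have h6 : t * (Y (φ m))⁻¹ ≤ 1 := by
      rw [← div_eq_mul_inv, div_le_one (hYpos _)]; exact h2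
    exact hGc.smul_mem_of_zero_mem h0 (hz _) ⟨h5, h6⟩
  have hc0 : ⟪v, c⟫_ℝ = 0 := by
    rw [real_inner_comm]
    exact (Submodule.mem_orthogonal _ _).1 hv c (Submodule.subset_span hcC)
  have h7 : Tendsto (fun m => |⟪‖v‖⁻¹ • v, (Y (φ m))⁻¹ • z (φ m)⟫_ℝ|) atTop
      (𝓝 |⟪‖v‖⁻¹ • v, c⟫_ℝ|) :=
    ((continuous_const.inner continuous_id).tendsto c |>.comp hlim).abs
  rw [inner_smul_left, hc0, mul_zero, abs_zero] at h7
  have h8 : ∀ m, ε ≤ |⟪‖v‖⁻¹ • v, (Y (φ m))⁻¹ • z (φ m)⟫_ℝ| := by
    intro m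
    rw [inner_smul_right, abs_mul, abs_of_pos (inv_pos.2 (hYpos _)), ← div_eq_inv_mul,
      le_div_iff₀ (hYpos _)]
    exact (hz3 (φ m)).le
  have := ge_of_tendsto' h7 h8
  linarith

end Pool.Agent.Q265.SC
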