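import Mathlib
import Pool.Agent.Q265.SC.One
import Pool.Agent.Q265.SC.Star

set_option autoImplicit false
set_option maxHeartbeats 4000000

open Filter Topology Set
open scoped InnerProductSpace

namespace Pool.Agent.Q265.SC

variable {E : Type*} [NormedAddCommGroup E] [InnerProductSpace ℝ E]

/-- the building block -/
noncomputable def blk (u : E) (χ : ℝ → ℝ) (Y : ℝ) (z : E) : ℝ := ⟪u, z⟫_ℝ * χ (‖z‖ ^ 2 / Y ^ 2)

lemma growth (G : Set E) (hGc : Convex ℝ G) (h0 : (0:E) ∈ G) (u : E) (Y w : ℝ) (hY : 0 < Y)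
    (hw : 0 < w) (hthin : ∀ z ∈ G, ‖z‖ ≤ 2 * Y → |⟪u, z⟫_ℝ| ≤ w) (z : E) (hz : z ∈ G) (L : ℝ)
    (hL : 0 ≤ L) (hzL : ‖z‖ ≤ 2 * Y + L) : |⟪u, z⟫_ℝ| ≤ w * (1 + L / (2 * Y)) := by
  by_cases h : ‖z‖ ≤ 2 * Y
  · refine (hthin z hz h).trans ?_
    have : 0 ≤ L / (2 * Y) := by positivity
    nlinarith
  · rw [not_le] at h
    have hz0 : 0 < ‖z‖ := by linarith
    have h1 : ((2 * Y) / ‖z‖) • z ∈ G :=
      hGc.smul_mem_of_zero_mem h0 hz ⟨by positivity, by rw [div_le_one hz0]; exact h.le⟩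
    have h2 := hthin _ h1 (by
      rw [norm_smul, Real.norm_of_nonneg (by positivity), div_mul_cancel₀ _ hz0.ne'])
    rw [inner_smul_right, abs_mul, abs_of_pos (by positivity), div_mul_eq_mul_div,
      div_le_iff₀ hz0] at h2
    have h3 : |⟪u, z⟫_ℝ| ≤ w * ‖z‖ / (2 * Y) := by
      rw [le_div_iff₀ (by positivity)]; linarith
    refine h3.trans ?_
    rw [div_le_iff₀ (by positivity)]
    have h4 : w * (1 + L / (2 * Y)) * (2 * Y) = w * (2 * Y + L) := by
      field_simp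
    rw [h4]
    gcongr

lemma est (G : Set E) (hGc : Convex ℝ G) (h0 : (0:E) ∈ G) (u : E) (hu : ‖u‖ = 1) (Y w : ℝ)
    (hw : 0 < w) (hwY : w ≤ Y) (hthin : ∀ z ∈ G, ‖z‖ ≤ 2 * Y → |⟪u, z⟫_ℝ| ≤ w)
    (χ χ' χ'' : ℝ → ℝ) (c : ℝ) (hc : 1 ≤ c) (h1 : ∀ t, HasDerivAt χ (χ' t) t)
    (h2 : ∀ t, HasDerivAt χ' (χ'' t) t) (hb0 : ∀ t, |χ t| ≤ c) (hb1 : ∀ t, |χ' t| ≤ c)
    (hb2 : ∀ t, |χ'' t| ≤ c) (hs : ∀ t, t ∉ Ioo (1:ℝ) 4 → χ t = 0 ∧ χ' t = 0 ∧ χ'' t = 0)
    (α : ℝ) (hα0 : 0 < α) (hα1 : α < 1) (x y : E) (hx : x ∈ G) (hy : y ∈ G) (l : ℝ) (hl0 : 0 ≤ l)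
    (hl1 : l ≤ 1) :
    (Y * w ^ (α - 1)) * |blk u χ Y (l • x + (1 - l) • y) - l * blk u χ Y x - (1 - l) * blk u χ Y y|
      ≤ l * (1 - l) * (42 * c * (‖x - y‖ * ‖x - y‖ ^ α)) := by
  have hY : 0 < Y := lt_of_lt_of_le hw hwY
  set L := ‖x - y‖ with hLdef
  have hL0 : 0 ≤ L := norm_nonneg _
  have hll : 0 ≤ l * (1 - l) := mul_nonneg hl0 (by linarith)
  rcases eq_or_lt_of_le hL0 with hL | hLpos
  · have hxy : x = y := by
      rw [eq_comm, hLdef, norm_eq_zero, sub_eq_zero] at hL; exact hL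
    subst hxy
    have : l • x + (1 - l) • x = x := by rw [← add_smul]; simp
    rw [this, show blk u χ Y x - l * blk u χ Y x - (1 - l) * blk u χ Y x = 0 by ring, abs_zero,
      mul_zero]
    positivity
  set δ := ⟪u, x - y⟫_ℝ with hδ
  -- the curve
  set z : ℝ → E := fun t => y + t • (x - y) with hz
  set b : ℝ → ℝ := fun t => ‖z t‖ ^ 2 / Y ^ 2 with hb
  set b' : ℝ → ℝ := fun t => 2 * ⟪z t, x - y⟫_ℝ / Y ^ 2 with hb'
  set a : ℝ → ℝ := fun t => ⟪u, z t⟫_ℝ with ha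
  have hzd : ∀ t, HasDerivAt z (x - y) t := by
    intro t
    have := ((hasDerivAt_id t).smul_const (x - y)).const_add y
    simpa [hz] using this
  have had : ∀ t, HasDerivAt a δ t := by
    intro t
    have := (HasDerivAt.inner ℝ (hasDerivAt_const t u) (hzd t))
    simpa [ha, hδ] using this
  have hbd : ∀ t, HasDerivAt b (b' t) t := by
    intro t
    have := ((hzd t).norm_sq).div_const (Y ^ 2)
    exact this
  have hb'd : ∀ t, HasDerivAt b' (2 * L ^ 2 / Y ^ 2) t := by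
    intro t
    have h3 := (HasDerivAt.inner ℝ (hzd t) (hasDerivAt_const t (x - y)))
    have h4 := (h3.const_mul 2).div_const (Y ^ 2)
    have h5 : (2 * (⟪z t, (0:E)⟫_ℝ + ⟪x - y, x - y⟫_ℝ) / Y ^ 2) = 2 * L ^ 2 / Y ^ 2 := by
      rw [inner_zero_right, zero_add, real_inner_self_eq_norm_sq]
    rw [h5] at h4
    exact h4
  set g : ℝ → ℝ := fun t => a t * χ (b t) with hg
  set g' : ℝ → ℝ := fun t => δ * χ (b t) + a t * (χ' (b t) * b' t) with hg'
  set g'' : ℝ → ℝ := fun t => δ * (χ' (b t) * b' t) +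
    (δ * (χ' (b t) * b' t) + a t * (χ'' (b t) * b' t * b' t + χ' (b t) * (2 * L ^ 2 / Y ^ 2))) with hg''
  have hgd : ∀ t, HasDerivAt g (g' t) t := by
    intro t
    exact (had t).mul ((h1 (b t)).comp t (hbd t))
  have hg'd : ∀ t, HasDerivAt g' (g'' t) t := by
    intro t
    have e1 : HasDerivAt (fun t => χ (b t)) (χ' (b t) * b' t) t := (h1 (b t)).comp t (hbd t)
    have e2 : HasDerivAt (fun t => χ' (b t)) (χ'' (b t) * b' t) t := (h2 (b t)).comp t (hbd t)
    have e3 := (e1.const_mul δ).add ((had t).mul (e2.mul (hb'd t)))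
    exact e3
  have hgl : blk u χ Y (l • x + (1 - l) • y) - l * blk u χ Y x - (1 - l) * blk u χ Y y
      = g l - l * g 1 - (1 - l) * g 0 := by
    have e1 : z l = l • x + (1 - l) • y := by
      simp only [hz, smul_sub, sub_smul, one_smul]; abel
    have e2 : z 1 = x := by simp [hz]
    have e3 : z 0 = y := by simp [hz]
    simp only [hg, ha, hb, e1, e2, e3, blk]
  rw [hgl]
  have hzG : ∀ t ∈ Icc (0:ℝ) 1, z t ∈ G := by
    intro t ht
    have : z t = t • x + (1 - t) • y := by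
      simp only [hz, smul_sub, sub_smul, one_smul]; abel
    rw [this]
    exact hGc hx hy ht.1 (by linarith [ht.2]) (by ring)
  have hA : 0 ≤ Y * w ^ (α - 1) := by positivity
  have hwα : w ^ (α - 1) * w = w ^ α := by
    rw [← Real.rpow_add_one hw.ne']; congr 1; ring
  -- local bounds
  have hloc : ∀ t ∈ Icc (0:ℝ) 1, b t ∈ Ioo (1:ℝ) 4 → |a t| ≤ w ∧ |b' t| ≤ 4 * L / Y ∧ ‖z t‖ ≤ 2 * Y := by
    intro t ht hbt
    have h3 : ‖z t‖ ≤ 2 * Y := by
      have h4 := hbt.2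
      simp only [hb] at h4
      rw [div_lt_iff₀ (by positivity)] at h4
      have : ‖z t‖ ^ 2 ≤ (2 * Y) ^ 2 := by nlinarith
      exact (sq_le_sq₀ (norm_nonneg _) (by positivity)).1 this
    refine ⟨hthin _ (hzG t ht) h3, ?_, h3⟩
    have h5 : |⟪z t, x - y⟫_ℝ| ≤ 2 * Y * L :=
      (abs_real_inner_le_norm _ _).trans (by gcongr)
    simp only [hb']
    rw [abs_div, abs_mul, abs_of_pos (show (0:ℝ) < 2 by norm_num), abs_of_pos (show 0 < Y ^ 2 by positivity),
      div_le_div_iff₀ (by positivity) hY]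
    nlinarith
  by_cases hmeet : ∃ t ∈ Icc (0:ℝ) 1, b t ∈ Ioo (1:ℝ) 4
  swap
  · push Not at hmeet
    have hg0 : ∀ t ∈ Icc (0:ℝ) 1, g' t = 0 := by
      intro t ht
      obtain ⟨e1, e2, -⟩ := hs _ (hmeet t ht)
      simp only [hg', e1, e2]; ring
    have h3 := second_diff g g' hgd 0 (fun s t hs' ht' => by rw [hg0 s hs', hg0 t ht']; simp) l hl0 hl1
    rw [mul_zero] at h3
    have h4 : |g l - l * g 1 - (1 - l) * g 0| = 0 := le_antisymm h3 (abs_nonneg _)
    rw [h4, mul_zero]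
    positivity
  have hδL : |δ| ≤ L := by
    have := abs_real_inner_le_norm u (x - y)
    rwa [hu, one_mul] at this
  have hδw : |δ| ≤ w * (2 + L / Y) := by
    obtain ⟨t, ht, hbt⟩ := hmeet
    obtain ⟨-, -, h3⟩ := hloc t ht hbt
    have h4 : ‖x‖ ≤ 2 * Y + L := by
      have e1 : x = z t + (1 - t) • (x - y) := by
        simp only [hz, smul_sub, sub_smul, one_smul]; abel
      calc ‖x‖ = ‖z t + (1 - t) • (x - y)‖ := by rw [← e1]
        _ ≤ ‖z t‖ + ‖(1 - t) • (x - y)‖ := norm_add_le _ _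
        _ ≤ 2 * Y + 1 * L := by
          gcongr
          rw [norm_smul, Real.norm_of_nonneg (by linarith [ht.2])]
          gcongr
          linarith [ht.1]
        _ = _ := by ring
    have h5 : ‖y‖ ≤ 2 * Y + L := by
      have e1 : y = z t - t • (x - y) := by
        simp only [hz]; abel
      calc ‖y‖ = ‖z t - t • (x - y)‖ := by rw [← e1]
        _ ≤ ‖z t‖ + ‖t • (x - y)‖ := norm_sub_le _ _
        _ ≤ 2 * Y + 1 * L := by
          gcongr
          rw [norm_smul, Real.norm_of_nonneg ht.1]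
          gcongr
          exact ht.2
        _ = _ := by ring
    have h6 := growth G hGc h0 u Y w hY hw hthin x hx L hL0 h4
    have h7 := growth G hGc h0 u Y w hY hw hthin y hy L hL0 h5
    calc |δ| = |⟪u, x⟫_ℝ - ⟪u, y⟫_ℝ| := by rw [hδ, inner_sub_right]
      _ ≤ |⟪u, x⟫_ℝ| + |⟪u, y⟫_ℝ| := abs_sub _ _
      _ ≤ w * (1 + L / (2 * Y)) + w * (1 + L / (2 * Y)) := add_le_add h6 h7
      _ = _ := by field_simp; ring
  have hc0 : 0 < c := by linarith
  -- bound of the first derivative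
  have hsup1 : ∀ t ∈ Icc (0:ℝ) 1, |g' t| ≤ c * (|δ| + w * (4 * L / Y)) := by
    intro t ht
    by_cases hbt : b t ∈ Ioo (1:ℝ) 4
    · obtain ⟨e1, e2, -⟩ := hloc t ht hbt
      calc |g' t| ≤ |δ * χ (b t)| + |a t * (χ' (b t) * b' t)| := abs_add_le _ _
        _ = |δ| * |χ (b t)| + |a t| * (|χ' (b t)| * |b' t|) := by rw [abs_mul, abs_mul, abs_mul]
        _ ≤ |δ| * c + w * (c * (4 * L / Y)) := by
          gcongr
          · exact hb0 _
          · exact hb1 _
        _ = _ := by ring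
    · obtain ⟨e1, e2, -⟩ := hs _ hbt
      simp only [hg', e1, e2]
      rw [show δ * 0 + a t * (0 * b' t) = 0 by ring, abs_zero]
      positivity
  have hsup2 : ∀ t ∈ Icc (0:ℝ) 1, |g'' t| ≤ c * (8 * |δ| * (L / Y) + 18 * w * (L / Y) ^ 2) := by
    intro t ht
    by_cases hbt : b t ∈ Ioo (1:ℝ) 4
    · obtain ⟨e1, e2, -⟩ := hloc t ht hbt
      have e3 : |2 * L ^ 2 / Y ^ 2| = 2 * (L / Y) ^ 2 := by
        rw [abs_of_nonneg (by positivity), div_pow]; ring
      calc |g'' t| ≤ |δ * (χ' (b t) * b' t)| + |δ * (χ' (b t) * b' t) + a t * (χ'' (b t) * b' t * b' t +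
            χ' (b t) * (2 * L ^ 2 / Y ^ 2))| := abs_add_le _ _
        _ ≤ |δ * (χ' (b t) * b' t)| + (|δ * (χ' (b t) * b' t)| + |a t * (χ'' (b t) * b' t * b' t +
            χ' (b t) * (2 * L ^ 2 / Y ^ 2))|) := by gcongr; exact abs_add_le _ _
        _ ≤ |δ| * (|χ' (b t)| * |b' t|) + (|δ| * (|χ' (b t)| * |b' t|) + |a t| * (|χ'' (b t)| * |b' t| * |b' t| +
            |χ' (b t)| * (2 * (L / Y) ^ 2))) := by
            have e4 : |χ'' (b t) * b' t * b' t + χ' (b t) * (2 * L ^ 2 / Y ^ 2)| ≤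
                |χ'' (b t)| * |b' t| * |b' t| + |χ' (b t)| * (2 * (L / Y) ^ 2) :=
              (abs_add_le _ _).trans (by rw [abs_mul, abs_mul, abs_mul, e3])
            have e5 : |δ * (χ' (b t) * b' t)| = |δ| * (|χ' (b t)| * |b' t|) := by
              rw [abs_mul, abs_mul]
            rw [e5, abs_mul (a t)]
            gcongr
        _ ≤ |δ| * (c * (4 * L / Y)) + (|δ| * (c * (4 * L / Y)) + w * (c * (4 * L / Y) * (4 * L / Y) +
            c * (2 * (L / Y) ^ 2))) := by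
            gcongr
            · exact hb1 _
            · exact hb1 _
            · exact hb2 _
            · exact hb1 _
        _ = _ := by ring
    · obtain ⟨e1, e2, e3⟩ := hs _ hbt
      simp only [hg'', e2, e3]
      rw [show δ * (0 * b' t) + (δ * (0 * b' t) + a t * (0 * b' t * b' t + 0 * (2 * L ^ 2 / Y ^ 2))) = 0 by ring,
        abs_zero]
      positivity
  by_cases hLY : Y ≤ L
  · -- large distances
    have h3 := second_diff g g' hgd (2 * (c * (|δ| + w * (4 * L / Y)))) (fun s t hs' ht' => by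
      have e1 := hsup1 s hs'
      have e2 := hsup1 t ht'
      calc |g' s - g' t| ≤ |g' s| + |g' t| := abs_sub _ _
        _ ≤ _ := by linarith) l hl0 hl1
    have hwL : w ^ α ≤ L ^ α := Real.rpow_le_rpow hw.le (hwY.trans hLY) hα0.le
    have h4 : (Y * w ^ (α - 1)) * (2 * (c * (|δ| + w * (4 * L / Y)))) ≤ 42 * c * (L * L ^ α) := by
      calc (Y * w ^ (α - 1)) * (2 * (c * (|δ| + w * (4 * L / Y))))
          ≤ (Y * w ^ (α - 1)) * (2 * (c * (w * (2 + L / Y) + w * (4 * L / Y)))) := by gcongr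
        _ = 2 * c * (w ^ (α - 1) * w) * (2 * Y + 5 * L) := by field_simp; ring
        _ ≤ 2 * c * L ^ α * (7 * L) := by
            rw [hwα]
            gcongr
            linarith
        _ = 14 * c * (L * L ^ α) := by ring
        _ ≤ _ := by gcongr; norm_num
    calc (Y * w ^ (α - 1)) * |g l - l * g 1 - (1 - l) * g 0|
        ≤ (Y * w ^ (α - 1)) * (l * (1 - l) * (2 * (c * (|δ| + w * (4 * L / Y))))) := by gcongr
      _ = l * (1 - l) * ((Y * w ^ (α - 1)) * (2 * (c * (|δ| + w * (4 * L / Y))))) := by ring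
      _ ≤ _ := by gcongr
  · rw [not_le] at hLY
    have h3 := second_diff g g' hgd (c * (8 * |δ| * (L / Y) + 18 * w * (L / Y) ^ 2)) (fun s t hs' ht' =>
      osc_of_deriv g' g'' _ hg'd hsup2 s t hs' ht') l hl0 hl1
    have hLY1 : L / Y ≤ 1 := by rw [div_le_one hY]; exact hLY.le
    have h4 : (Y * w ^ (α - 1)) * (c * (8 * |δ| * (L / Y) + 18 * w * (L / Y) ^ 2)) ≤ 42 * c * (L * L ^ α) := by
      have e0 : (Y * w ^ (α - 1)) * (c * (8 * |δ| * (L / Y) + 18 * w * (L / Y) ^ 2))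
          = c * (w ^ (α - 1) * (8 * |δ| * L + 18 * w * L * (L / Y))) := by field_simp
      rw [e0]
      by_cases hLw : L ≤ w
      · have e1 : w ^ (α - 1) ≤ L ^ (α - 1) := Real.rpow_le_rpow_of_nonpos hLpos hLw (by linarith)
        have e2 : L ^ (α - 1) * L = L ^ α := by
          rw [← Real.rpow_add_one hLpos.ne']; congr 1; ring
        have e3 : w * (L / Y) ≤ L := by
          rw [← mul_div_assoc, div_le_iff₀ hY]; nlinarith
        calc c * (w ^ (α - 1) * (8 * |δ| * L + 18 * w * L * (L / Y)))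
            = c * (w ^ (α - 1) * (8 * |δ| * L + 18 * L * (w * (L / Y)))) := by ring
          _ ≤ c * (L ^ (α - 1) * (8 * L * L + 18 * L * L)) := by gcongr
          _ = 26 * c * ((L ^ (α - 1) * L) * L) := by ring
          _ = 26 * c * (L * L ^ α) := by rw [e2]; ring
          _ ≤ _ := by gcongr; norm_num
      · rw [not_le] at hLw
        have hwL : w ^ α ≤ L ^ α := Real.rpow_le_rpow hw.le hLw.le hα0.le
        have e1 : |δ| ≤ 3 * w := by
          refine hδw.trans ?_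
          nlinarith
        calc c * (w ^ (α - 1) * (8 * |δ| * L + 18 * w * L * (L / Y)))
            ≤ c * (w ^ (α - 1) * (8 * (3 * w) * L + 18 * w * L * 1)) := by gcongr
          _ = 42 * c * ((w ^ (α - 1) * w) * L) := by ring
          _ ≤ 42 * c * (L ^ α * L) := by rw [hwα]; gcongr
          _ = _ := by ring
    calc (Y * w ^ (α - 1)) * |g l - l * g 1 - (1 - l) * g 0|
        ≤ (Y * w ^ (α - 1)) * (l * (1 - l) * (c * (8 * |δ| * (L / Y) + 18 * w * (L / Y) ^ 2))) := by gcongr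
      _ = l * (1 - l) * ((Y * w ^ (α - 1)) * (c * (8 * |δ| * (L / Y) + 18 * w * (L / Y) ^ 2))) := by ring
      _ ≤ _ := by gcongr

end Pool.Agent.Q265.SC
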