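import Mathlib
import Pool.Agent.Q265.SC.Defs

set_option autoImplicit false
set_option maxHeartbeats 4000000

open Filter Topology Set

namespace Pool.Agent.Q265.SC

/-- the modulus `t / (1 + log (1 + t))` -/
noncomputable def om (t : ℝ) : ℝ := t / (1 + Real.log (1 + t))

lemma den_pos {t : ℝ} (ht : 0 ≤ t) : 1 ≤ 1 + Real.log (1 + t) := by
  have := Real.log_nonneg (show 1 ≤ 1 + t by linarith)
  linarith

lemma om_zero : om 0 = 0 := by simp [om]

lemma om_nonneg {t : ℝ} (ht : 0 ≤ t) : 0 ≤ om t :=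
  div_nonneg ht (by linarith [den_pos ht])

lemma om_le {t : ℝ} (ht : 0 ≤ t) : om t ≤ t := div_le_self ht (den_pos ht)

lemma log_le {t : ℝ} (ht : 0 ≤ t) : Real.log (1 + t) ≤ t := by
  have := Real.log_le_sub_one_of_pos (show 0 < 1 + t by linarith)
  linarith

/-- `ω(s)/s ≤ ω(t)/t` for `t ≤ s`, in product form -/
lemma om_slope {s t : ℝ} (ht : 0 ≤ t) (hts : t ≤ s) : t * om s ≤ s * om t := by
  unfold om
  have h1 := den_pos ht
  have h2 := den_pos (ht.trans hts)
  have h3 : Real.log (1 + t) ≤ Real.log (1 + s) := Real.log_le_log (by linarith) (by linarith)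
  rw [← mul_div_assoc, ← mul_div_assoc, div_le_div_iff₀ (by linarith) (by linarith)]
  have h4 : 0 ≤ t * s := mul_nonneg ht (ht.trans hts)
  nlinarith

lemma om_mul_le {t c : ℝ} (ht : 0 ≤ t) (hc : 1 ≤ c) : om (c * t) ≤ c * om t := by
  rcases eq_or_lt_of_le ht with h | h
  · rw [← h]; simp [om]
  · have := om_slope ht (show t ≤ c * t by nlinarith)
    have h2 : t * om (c * t) ≤ t * (c * om t) := by linarith
    exact le_of_mul_le_mul_left h2 h

lemma hasDerivAt_om {t : ℝ} (ht : 0 < 1 + t) (hd : 1 + Real.log (1 + t) ≠ 0) :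
    HasDerivAt om ((1 + Real.log (1 + t) - t / (1 + t)) / (1 + Real.log (1 + t)) ^ 2) t := by
  have h1 : HasDerivAt (fun t : ℝ => 1 + Real.log (1 + t)) (1 / (1 + t)) t := by
    have := ((hasDerivAt_id t).const_add 1).log ht.ne'
    have h2 := this.const_add 1
    simpa using h2
  have h2 : HasDerivAt (fun t : ℝ => t / (1 + Real.log (1 + t)))
      ((1 * (1 + Real.log (1 + t)) - t * (1 / (1 + t))) / (1 + Real.log (1 + t)) ^ 2) t :=
    (hasDerivAt_id' t).div h1 hd
  have e : (1 * (1 + Real.log (1 + t)) - t * (1 / (1 + t))) / (1 + Real.log (1 + t)) ^ 2 =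
      (1 + Real.log (1 + t) - t / (1 + t)) / (1 + Real.log (1 + t)) ^ 2 := by
    congr 1; ring
  rw [e] at h2
  exact h2

lemma om_mono : MonotoneOn om (Ici 0) := by
  apply monotoneOn_of_deriv_nonneg (convex_Ici 0)
  · intro t ht
    have ht' : (0:ℝ) ≤ t := ht
    exact (hasDerivAt_om (by linarith) (by linarith [den_pos ht'])).continuousAt.continuousWithinAt
  · intro t ht
    rw [interior_Ici] at ht
    have ht' : (0:ℝ) < t := ht
    exact (hasDerivAt_om (by linarith) (by linarith [den_pos ht'.le])).differentiableAt.differentiableWithinAt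
  · intro t ht
    rw [interior_Ici] at ht
    have ht' : (0:ℝ) < t := ht
    rw [(hasDerivAt_om (by linarith) (by linarith [den_pos ht'.le])).deriv]
    have h1 := den_pos ht'.le
    have h2 : t / (1 + t) ≤ 1 := by rw [div_le_one (by linarith)]; linarith
    apply div_nonneg _ (by positivity)
    linarith

lemma om_le_om {s t : ℝ} (hs : 0 ≤ s) (hst : s ≤ t) : om s ≤ om t :=
  om_mono hs (hs.trans hst) hst

lemma om_concave : ConcaveOn ℝ (Ici 0) om := by
  have hd1 : ∀ t : ℝ, 0 < t → deriv om t = (1 + Real.log (1 + t) - t / (1 + t)) / (1 + Real.log (1 + t)) ^ 2 :=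
    fun t ht => (hasDerivAt_om (by linarith) (by linarith [den_pos ht.le])).deriv
  have hd2 : ∀ t : ℝ, 0 < t → HasDerivAt (deriv om)
      (-((2 + t) * (1 + Real.log (1 + t)) - 2 * t) / ((1 + t) ^ 2 * (1 + Real.log (1 + t)) ^ 3)) t := by
    intro t ht
    have h0 := den_pos ht.le
    have h1 : HasDerivAt (fun t : ℝ => 1 + Real.log (1 + t)) (1 / (1 + t)) t := by
      have := ((hasDerivAt_id t).const_add 1).log (show (1 + id t) ≠ 0 by simp only [id]; linarith)
      have h2 := this.const_add 1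
      simpa using h2
    have hne : 1 + Real.log (1 + t) ≠ 0 := (by linarith : (0:ℝ) < 1 + Real.log (1 + t)).ne'
    have hne2 : (1:ℝ) + t ≠ 0 := (by linarith : (0:ℝ) < 1 + t).ne'
    have h2 : HasDerivAt (fun t : ℝ => t / (1 + t)) ((1 * (1 + t) - t * 1) / (1 + t) ^ 2) t :=
      (hasDerivAt_id' t).div ((hasDerivAt_id' t).const_add 1) hne2
    have h1s : HasDerivAt (fun t : ℝ => (1 + Real.log (1 + t)) ^ 2)
        (1 / (1 + t) * (1 + Real.log (1 + t)) + (1 + Real.log (1 + t)) * (1 / (1 + t))) t := by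
      have := h1.mul h1
      refine this.congr_of_eventuallyEq (Filter.Eventually.of_forall fun s => ?_)
      simp only [Pi.mul_apply, sq]
    have h3 : HasDerivAt (fun t : ℝ => (1 + Real.log (1 + t) - t / (1 + t)) / (1 + Real.log (1 + t)) ^ 2)
        (((1 / (1 + t) - (1 * (1 + t) - t * 1) / (1 + t) ^ 2) * (1 + Real.log (1 + t)) ^ 2 -
          (1 + Real.log (1 + t) - t / (1 + t)) *
          (1 / (1 + t) * (1 + Real.log (1 + t)) + (1 + Real.log (1 + t)) * (1 / (1 + t)))) /
          ((1 + Real.log (1 + t)) ^ 2) ^ 2) t :=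
      (h1.sub h2).div h1s (pow_ne_zero 2 hne)
    have h4 : deriv om =ᶠ[𝓝 t] fun t => (1 + Real.log (1 + t) - t / (1 + t)) / (1 + Real.log (1 + t)) ^ 2 := by
      filter_upwards [lt_mem_nhds ht] with s hs
      exact hd1 s hs
    refine (HasDerivAt.congr_of_eventuallyEq ?_ h4)
    have e : (-((2 + t) * (1 + Real.log (1 + t)) - 2 * t) / ((1 + t) ^ 2 * (1 + Real.log (1 + t)) ^ 3)) =
        (((1 / (1 + t) - (1 * (1 + t) - t * 1) / (1 + t) ^ 2) * (1 + Real.log (1 + t)) ^ 2 -
          (1 + Real.log (1 + t) - t / (1 + t)) *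
          (1 / (1 + t) * (1 + Real.log (1 + t)) + (1 + Real.log (1 + t)) * (1 / (1 + t)))) /
          ((1 + Real.log (1 + t)) ^ 2) ^ 2) := by
      generalize Real.log (1 + t) = X at hne ⊢
      field_simp
      ring
    rw [e]
    exact h3
  apply concaveOn_of_deriv2_nonpos (convex_Ici 0)
  · intro t ht
    have ht' : (0:ℝ) ≤ t := ht
    exact (hasDerivAt_om (by linarith) (by linarith [den_pos ht'])).continuousAt.continuousWithinAt
  · intro t ht
    rw [interior_Ici] at ht
    have ht' : (0:ℝ) < t := ht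
    exact (hasDerivAt_om (by linarith) (by linarith [den_pos ht'.le])).differentiableAt.differentiableWithinAt
  · intro t ht
    rw [interior_Ici] at ht
    exact (hd2 t ht).differentiableAt.differentiableWithinAt
  · intro t ht
    rw [interior_Ici] at ht
    have ht' : (0:ℝ) < t := ht
    have h0 := den_pos ht'.le
    simp only [Function.iterate_succ, Function.iterate_zero, Function.comp_apply, id]
    rw [(hd2 t ht).deriv]
    apply div_nonpos_of_nonpos_of_nonneg _ (by positivity)
    have h1 : 1 - (1 + t)⁻¹ ≤ Real.log (1 + t) := Real.one_sub_inv_le_log_of_pos (by linarith)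
    have h2 : (1 + t)⁻¹ = 1 / (1 + t) := by rw [one_div]
    have h3 : (2 + t) * (1 + (1 - (1 + t)⁻¹)) ≥ 2 * t := by
      rw [h2]
      have h4 : (2 + t) * (1 + (1 - 1 / (1 + t))) = (2 + t) * (1 + 2 * t) / (1 + t) := by
        field_simp; ring
      rw [h4, ge_iff_le, le_div_iff₀ (by linarith)]
      nlinarith
    have h5 : (2 + t) * (1 + (1 - (1 + t)⁻¹)) ≤ (2 + t) * (1 + Real.log (1 + t)) := by
      gcongr
    linarith

lemma om_isModulus : IsModulus om := by
  refine ⟨fun t ht => om_nonneg ht, om_mono, ?_⟩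
  have h1 : ContinuousAt om 0 := (hasDerivAt_om (by norm_num) (by simp)).continuousAt
  have h2 : Tendsto om (𝓝 0) (𝓝 0) := by
    have := h1.tendsto
    rwa [om_zero] at this
  exact h2.mono_left nhdsWithin_le_nhds

lemma om_lim_zero : Tendsto (fun t => om t / t) (𝓝[>] 0) (𝓝 1) := by
  have h1 : Tendsto (fun t : ℝ => 1 / (1 + Real.log (1 + t))) (𝓝 0) (𝓝 (1 / (1 + Real.log (1 + 0)))) := by
    have hc : ContinuousAt (fun t : ℝ => 1 / (1 + Real.log (1 + t))) 0 := by
      refine ContinuousAt.div continuousAt_const (continuousAt_const.add (ContinuousAt.log (by fun_prop) (by norm_num))) (by simp)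
    exact hc.tendsto
  simp only [add_zero, Real.log_one, div_one] at h1
  refine (h1.mono_left nhdsWithin_le_nhds).congr' ?_
  filter_upwards [self_mem_nhdsWithin] with t ht
  have ht' : (0:ℝ) < t := ht
  have := den_pos ht'.le
  unfold om
  field_simp

lemma om_lim_top : Tendsto (fun t => om t / t) atTop (𝓝 0) := by
  have h1 : Tendsto (fun t : ℝ => 1 + Real.log (1 + t)) atTop atTop :=
    tendsto_atTop_add_const_left _ _ (Real.tendsto_log_atTop.comp (tendsto_atTop_add_const_left _ _ tendsto_id))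
  refine h1.inv_tendsto_atTop.congr' ?_
  filter_upwards [eventually_gt_atTop 0] with t ht
  have := den_pos ht.le
  unfold om
  simp only [Pi.inv_apply]
  field_simp

/-- `ω(ℓ/2) ≤ (17/20) ω(ℓ)` -/
lemma om_half {t : ℝ} (ht : 0 ≤ t) : om (t / 2) ≤ 17 / 20 * om t := by
  unfold om
  have h0 := den_pos ht
  have h1 := den_pos (show 0 ≤ t / 2 by linarith)
  rw [div_le_iff₀ (by linarith)]
  have h2 : Real.log (1 + t) ≤ Real.log 2 + Real.log (1 + t / 2) := by
    rw [← Real.log_mul (by norm_num) (by linarith)]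
    exact Real.log_le_log (by linarith) (by linarith)
  have h3 := Real.log_two_lt_d9
  have h4 : 10 * (1 + Real.log (1 + t)) ≤ 17 * (1 + Real.log (1 + t / 2)) := by
    have : 0 ≤ Real.log (1 + t / 2) := Real.log_nonneg (by linarith)
    linarith
  have h5 : 17 / 20 * (t / (1 + Real.log (1 + t))) * (1 + Real.log (1 + t / 2)) =
      (t / 2) * ((17 * (1 + Real.log (1 + t / 2))) / (10 * (1 + Real.log (1 + t)))) := by
    field_simp
    ring
  rw [h5]
  have h6 : 1 ≤ (17 * (1 + Real.log (1 + t / 2))) / (10 * (1 + Real.log (1 + t))) := by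
    rw [le_div_iff₀ (by linarith)]; linarith
  nlinarith

/-- many small steps: `N ω(ℓ/N) ≤ 3 ω(ℓ)` for `N = ⌈√ℓ⌉`, `ℓ ≥ 1/2` -/
lemma om_steps {t : ℝ} (ht : 1 / 2 ≤ t) : (⌈√t⌉₊ : ℝ) * om (t / ⌈√t⌉₊) ≤ 3 * om t := by
  have ht0 : 0 < t := by linarith
  have hs0 : 0 < √t := Real.sqrt_pos.2 ht0
  have hsq : √t ^ 2 = t := Real.sq_sqrt ht0.le
  have hN0 : 0 < ⌈√t⌉₊ := Nat.ceil_pos.2 hs0
  have hNpos : (0:ℝ) < ⌈√t⌉₊ := by exact_mod_cast hN0
  set N : ℝ := (⌈√t⌉₊ : ℝ) with hN
  have hN1 : N < √t + 1 := Nat.ceil_lt_add_one hs0.le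
  have hN2 : N ≤ 5 / 2 * √t := by nlinarith
  set d := t / N with hd
  have hd0 : 0 < d := by positivity
  have hd1 : √t ≤ 5 / 2 * d := by
    rw [hd, ← mul_div_assoc, le_div_iff₀ hNpos]
    nlinarith
  have h1 := den_pos hd0.le
  have h2 := den_pos ht0.le
  have h3 : 1 + Real.log (1 + t) ≤ 3 * (1 + Real.log (1 + d)) := by
    have h4 : 1 + t ≤ 7 * (1 + d) ^ 3 := by
      nlinarith [sq_nonneg d, pow_pos hd0 3]
    have h5 : Real.log (1 + t) ≤ Real.log 7 + 3 * Real.log (1 + d) := by
      have := Real.log_le_log (by linarith) h4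
      rw [Real.log_mul (by norm_num) (by positivity), Real.log_pow] at this
      exact_mod_cast this
    have h6 : Real.log 7 ≤ 2 := by
      rw [Real.log_le_iff_le_exp (by norm_num)]
      have h7 := Real.exp_one_gt_d9
      have h8 : Real.exp 2 = Real.exp 1 * Real.exp 1 := by rw [← Real.exp_add]; norm_num
      rw [h8]
      nlinarith
    linarith
  unfold om
  have e1 : N * (d / (1 + Real.log (1 + d))) = t / (1 + Real.log (1 + d)) := by
    rw [hd]; field_simp
  rw [e1, div_le_iff₀ (by linarith)]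
  have e2 : 3 * (t / (1 + Real.log (1 + t))) * (1 + Real.log (1 + d)) =
      t * (3 * (1 + Real.log (1 + d)) / (1 + Real.log (1 + t))) := by
    field_simp
  rw [e2]
  have e3 : 1 ≤ 3 * (1 + Real.log (1 + d)) / (1 + Real.log (1 + t)) := by
    rw [le_div_iff₀ (by linarith)]; linarith
  nlinarith

end Pool.Agent.Q265.SC
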