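import Mathlib
import Pool.Agent.Q265.SC.Defs

set_option autoImplicit false
set_option maxHeartbeats 4000000

open Filter Topology Set

namespace Pool.Agent.Q265.SC

variable {E : Type*} [NormedAddCommGroup E] [NormedSpace ℝ E] [FiniteDimensional ℝ E]

/-- the two-sided second difference bound -/
def SD (ω : ℝ → ℝ) (G : Set E) (f : E → ℝ) : Prop :=
  ∀ x ∈ G, ∀ y ∈ G, ∀ l : ℝ, 0 ≤ l → l ≤ 1 →
    |f (l • x + (1 - l) • y) - l * f x - (1 - l) * f y| ≤ l * (1 - l) * ‖x - y‖ * ω ‖x - y‖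

omit [FiniteDimensional ℝ E] in
lemma SD.of (ω : ℝ → ℝ) (G : Set E) (f : E → ℝ) (h1 : Semiconvex ω G f)
    (h2 : Semiconcave ω G f) : SD ω G f := by
  intro x hx y hy l hl0 hl1
  have e1 := h1.2 x hx y hy l hl0 hl1
  have e2 := h2.2 x hx y hy l hl0 hl1
  rw [abs_le]
  constructor <;> linarith

omit [FiniteDimensional ℝ E] in
/-- comparison of difference quotients -/
lemma quot_le (ω : ℝ → ℝ) (G : Set E) (f : E → ℝ) (hSD : SD ω G f) (p v : E) (hp : p ∈ G)
    (s : ℝ) (hs0 : 0 < s) (hs1 : s ≤ 1) (hv : p + v ∈ G) (hω : 0 ≤ ω ‖v‖) :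
    |f (p + s • v) - f p - s * (f (p + v) - f p)| ≤ s * (‖v‖ * ω ‖v‖) := by
  have h := hSD (p + v) hv p hp s hs0.le hs1
  have e1 : s • (p + v) + (1 - s) • p = p + s • v := by
    rw [smul_add, sub_smul, one_smul]; abel
  rw [e1, add_sub_cancel_left] at h
  have e2 : f (p + s • v) - f p - s * (f (p + v) - f p) =
      f (p + s • v) - s * f (p + v) - (1 - s) * f p := by ring
  rw [e2]
  refine h.trans ?_
  have h3 : 0 ≤ s * (‖v‖ * ω ‖v‖) := by positivity
  have : s * (1 - s) * ‖v‖ * ω ‖v‖ = (1 - s) * (s * (‖v‖ * ω ‖v‖)) := by ring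
  rw [this]
  nlinarith

/-- differentiability and the Taylor estimate, for moduli with `0 ≤ ω(t) ≤ t` -/
lemma taylor (ω : ℝ → ℝ) (hω0 : ∀ t, 0 ≤ t → 0 ≤ ω t) (hωt : ∀ t, 0 ≤ t → ω t ≤ t) (G : Set E)
    (hGo : IsOpen G) (hGc : Convex ℝ G) (f : E → ℝ) (hSD : SD ω G f) (p : E) (hp : p ∈ G) :
    DifferentiableAt ℝ f p ∧
      ∀ v : E, p + v ∈ G → |f (p + v) - f p - fderiv ℝ f p v| ≤ ‖v‖ * ω ‖v‖ := by
  -- difference quotients
  have hq1 : ∀ v : E, ∀ s t : ℝ, 0 < s → s ≤ t → p + t • v ∈ G →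
      |(f (p + s • v) - f p) / s - (f (p + t • v) - f p) / t| ≤ t * ‖v‖ ^ 2 := by
    intro v s t hs hst ht
    have ht0 : 0 < t := hs.trans_le hst
    have h1 := quot_le ω G f hSD p (t • v) hp (s / t) (by positivity) (by rw [div_le_one ht0]; exact hst)
      ht (hω0 _ (norm_nonneg _))
    rw [smul_smul, div_mul_cancel₀ _ ht0.ne'] at h1
    have h2 : (f (p + s • v) - f p) / s - (f (p + t • v) - f p) / t =
        (f (p + s • v) - f p - s / t * (f (p + t • v) - f p)) / s := by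
      field_simp
    rw [h2, abs_div, abs_of_pos hs, div_le_iff₀ hs]
    refine h1.trans ?_
    have h3 : ‖t • v‖ = t * ‖v‖ := by rw [norm_smul, Real.norm_of_nonneg ht0.le]
    have h4 := hωt ‖t • v‖ (norm_nonneg _)
    rw [h3] at h4 ⊢
    calc s / t * (t * ‖v‖ * ω (t * ‖v‖)) ≤ s / t * (t * ‖v‖ * (t * ‖v‖)) := by gcongr
      _ = t * ‖v‖ ^ 2 * s := by field_simp
  -- neighbourhoods
  have hnb : ∀ v : E, ∀ᶠ t : ℝ in 𝓝 0, p + t • v ∈ G := by
    intro v
    have h1 : Tendsto (fun t : ℝ => p + t • v) (𝓝 0) (𝓝 p) := by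
      have : Continuous (fun t : ℝ => p + t • v) := by fun_prop
      have h2 := this.tendsto 0
      simpa using h2
    exact h1.eventually (hGo.mem_nhds hp)
  -- existence of the one-sided directional derivative
  have hex : ∀ v : E, ∃ D : ℝ, Tendsto (fun t : ℝ => (f (p + t • v) - f p) / t) (𝓝[>] 0) (𝓝 D) := by
    intro v
    have hc : Cauchy (map (fun t : ℝ => (f (p + t • v) - f p) / t) (𝓝[>] 0)) := by
      rw [Metric.cauchy_iff]
      refine ⟨inferInstance, fun ε hε => ?_⟩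
      obtain ⟨r, hr, hr2⟩ := Metric.eventually_nhds_iff.1 (hnb v)
      set t0 := min (r / 2) (ε / (4 * (‖v‖ ^ 2 + 1))) with ht0
      have ht0pos : 0 < t0 := by positivity
      have ht0r : t0 < r := lt_of_le_of_lt (min_le_left _ _) (by linarith)
      have ht0e : t0 * ‖v‖ ^ 2 ≤ ε / 4 := by
        have h1 : t0 ≤ ε / (4 * (‖v‖ ^ 2 + 1)) := min_le_right _ _
        calc t0 * ‖v‖ ^ 2 ≤ ε / (4 * (‖v‖ ^ 2 + 1)) * (‖v‖ ^ 2 + 1) := by
              gcongr; linarith
          _ = ε / 4 := by field_simp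
      refine ⟨_, image_mem_map (Ioc_mem_nhdsGT ht0pos), ?_⟩
      have hG0 : p + t0 • v ∈ G := hr2 (by rw [Real.dist_eq, sub_zero, abs_of_pos ht0pos]; exact ht0r)
      rintro _ ⟨s, hs, rfl⟩ _ ⟨t, ht, rfl⟩
      have h1 := hq1 v s t0 hs.1 hs.2 hG0
      have h2 := hq1 v t t0 ht.1 ht.2 hG0
      rw [Real.dist_eq]
      set a := (f (p + s • v) - f p) / s
      set b := (f (p + t • v) - f p) / t
      set c := (f (p + t0 • v) - f p) / t0
      have h3 : |a - b| ≤ |a - c| + |b - c| := by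
        have : a - b = (a - c) - (b - c) := by ring
        rw [this]; exact abs_sub _ _
      linarith
    obtain ⟨D, hD⟩ := cauchy_iff_exists_le_nhds.1 hc
    exact ⟨D, hD⟩
  choose D hD using hex
  -- estimate
  have hest : ∀ v : E, p + v ∈ G → |f (p + v) - f p - D v| ≤ ‖v‖ * ω ‖v‖ := by
    intro v hv
    have h1 : Tendsto (fun t : ℝ => |f (p + v) - f p - (f (p + t • v) - f p) / t|) (𝓝[>] 0)
        (𝓝 |f (p + v) - f p - D v|) := (tendsto_const_nhds.sub (hD v)).abs
    refine le_of_tendsto h1 ?_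
    filter_upwards [Ioc_mem_nhdsGT (show (0:ℝ) < 1 by norm_num)] with s hs
    have h2 := quot_le ω G f hSD p v hp s hs.1 hs.2 hv (hω0 _ (norm_nonneg _))
    have h3 : f (p + v) - f p - (f (p + s • v) - f p) / s =
        -((f (p + s • v) - f p - s * (f (p + v) - f p)) / s) := by
      have := hs.1.ne'
      field_simp
      ring
    rw [h3, abs_neg, abs_div, abs_of_pos hs.1, div_le_iff₀ hs.1]
    linarith
  -- linearity
  have hsmul : ∀ (c : ℝ) (v : E), 0 < c → D (c • v) = c * D v := by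
    intro c v hc
    have h1 : Tendsto (fun t : ℝ => c * ((f (p + (t * c) • v) - f p) / (t * c))) (𝓝[>] 0) (𝓝 (c * D v)) := by
      refine Tendsto.const_mul c ((hD v).comp ?_)
      refine tendsto_nhdsWithin_iff.2 ⟨?_, ?_⟩
      · have : Continuous (fun t : ℝ => t * c) := by fun_prop
        have h2 := this.tendsto 0
        rw [zero_mul] at h2
        exact h2.mono_left nhdsWithin_le_nhds
      · filter_upwards [self_mem_nhdsWithin] with t ht
        exact mul_pos ht hc
    have h2 : Tendsto (fun t : ℝ => (f (p + t • (c • v)) - f p) / t) (𝓝[>] 0) (𝓝 (c * D v)) := by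
      refine h1.congr' ?_
      filter_upwards [self_mem_nhdsWithin] with t ht
      have ht' : t ≠ 0 := (ne_of_gt ht)
      rw [smul_smul]
      field_simp
    exact tendsto_nhds_unique (hD _) h2
  have hmid : ∀ v v' : E, D (v + v') = D v + D v' := by
    intro v v'
    -- `D (v + v') = (D (2 v) + D (2 v')) / 2`
    have h1 : Tendsto (fun t : ℝ => (f (p + t • (v + v')) - f p) / t -
        (1 / 2 * ((f (p + t • ((2:ℝ) • v)) - f p) / t) + 1 / 2 * ((f (p + t • ((2:ℝ) • v')) - f p) / t)))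
        (𝓝[>] 0) (𝓝 (D (v + v') - (1 / 2 * D ((2:ℝ) • v) + 1 / 2 * D ((2:ℝ) • v')))) :=
      (hD _).sub (((hD _).const_mul _).add ((hD _).const_mul _))
    have h2 : Tendsto (fun t : ℝ => (f (p + t • (v + v')) - f p) / t -
        (1 / 2 * ((f (p + t • ((2:ℝ) • v)) - f p) / t) + 1 / 2 * ((f (p + t • ((2:ℝ) • v')) - f p) / t)))
        (𝓝[>] 0) (𝓝 0) := by
      rw [tendsto_zero_iff_abs_tendsto_zero]
      have h3 : Tendsto (fun t : ℝ => t * ‖(2:ℝ) • v - (2:ℝ) • v'‖ ^ 2) (𝓝[>] 0) (𝓝 0) := by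
        have : Continuous (fun t : ℝ => t * ‖(2:ℝ) • v - (2:ℝ) • v'‖ ^ 2) := by fun_prop
        have h4 := this.tendsto 0
        rw [zero_mul] at h4
        exact h4.mono_left nhdsWithin_le_nhds
      refine squeeze_zero' (Eventually.of_forall fun t => abs_nonneg _) ?_ h3
      have hn1 := (hnb ((2:ℝ) • v)).filter_mono (nhdsWithin_le_nhds (s := Ioi (0:ℝ)))
      have hn2 := (hnb ((2:ℝ) • v')).filter_mono (nhdsWithin_le_nhds (s := Ioi (0:ℝ)))
      filter_upwards [hn1, hn2, self_mem_nhdsWithin] with t e1 e2 e3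
      have ht : 0 < t := e3
      have h4 := hSD _ e1 _ e2 (1 / 2) (by norm_num) (by norm_num)
      have h5 : (1 / 2 : ℝ) • (p + t • (2:ℝ) • v) + (1 - 1 / 2 : ℝ) • (p + t • (2:ℝ) • v') =
          p + t • (v + v') := by
        rw [show (1 - 1 / 2 : ℝ) = 1 / 2 by norm_num, ← smul_add, add_add_add_comm, smul_add, smul_add,
          ← smul_add, ← two_smul ℝ p, smul_smul, smul_smul, smul_smul, smul_add, smul_add, smul_smul,
          smul_smul]
        norm_num
        congr 2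
        · congr 1; ring
        · congr 1; ring
      rw [h5] at h4
      have h6 : p + t • (2:ℝ) • v - (p + t • (2:ℝ) • v') = t • ((2:ℝ) • v - (2:ℝ) • v') := by
        rw [smul_sub]; abel
      rw [h6, norm_smul, Real.norm_of_nonneg ht.le] at h4
      have h7 := hωt (t * ‖(2:ℝ) • v - (2:ℝ) • v'‖) (by positivity)
      have h8 : (f (p + t • (v + v')) - f p) / t -
        (1 / 2 * ((f (p + t • ((2:ℝ) • v)) - f p) / t) + 1 / 2 * ((f (p + t • ((2:ℝ) • v')) - f p) / t)) =
        (f (p + t • (v + v')) - 1 / 2 * f (p + t • (2:ℝ) • v) - (1 - 1 / 2) * f (p + t • (2:ℝ) • v')) / t := by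
        field_simp
        ring
      simp only [Function.comp_apply]
      rw [h8, abs_div, abs_of_pos ht, div_le_iff₀ ht]
      refine h4.trans ?_
      set X := ‖(2:ℝ) • v - (2:ℝ) • v'‖
      have hX : 0 ≤ X := norm_nonneg _
      calc 1 / 2 * (1 - 1 / 2) * (t * X) * ω (t * X) ≤ 1 / 2 * (1 - 1 / 2) * (t * X) * (t * X) := by
            gcongr
        _ ≤ t * X ^ 2 * t := by nlinarith [sq_nonneg (t * X)]
    have h3 := tendsto_nhds_unique h1 h2
    rw [hsmul 2 v (by norm_num), hsmul 2 v' (by norm_num)] at h3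
    linarith
  have hzero : D 0 = 0 := by
    have := hmid 0 0
    rw [add_zero] at this
    linarith
  have hneg : ∀ v, D (-v) = - D v := by
    intro v
    have := hmid v (-v)
    rw [add_neg_cancel, hzero] at this
    linarith
  let A : E →ₗ[ℝ] ℝ :=
    { toFun := D
      map_add' := hmid
      map_smul' := by
        intro c v
        rw [RingHom.id_apply, smul_eq_mul]
        rcases lt_trichotomy c 0 with h | h | h
        · have h1 := hsmul (-c) v (by linarith)
          rw [neg_smul, hneg] at h1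
          linarith
        · rw [h, zero_smul, hzero, zero_mul]
        · exact hsmul c v h }
  let A' : E →L[ℝ] ℝ := LinearMap.toContinuousLinearMap A
  have hA' : ∀ v, A' v = D v := fun v => rfl
  have hfd : HasFDerivAt f A' p := by
    rw [hasFDerivAt_iff_isLittleO_nhds_zero]
    rw [Asymptotics.isLittleO_iff]
    intro c hc
    have h1 : ∀ᶠ v : E in 𝓝 0, p + v ∈ G := by
      have h2 : Tendsto (fun v : E => p + v) (𝓝 0) (𝓝 p) := by
        have : Continuous (fun v : E => p + v) := by fun_prop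
        have h3 := this.tendsto 0
        simpa using h3
      exact h2.eventually (hGo.mem_nhds hp)
    filter_upwards [h1, Metric.ball_mem_nhds (0:E) hc] with v hv hv2
    rw [mem_ball_zero_iff] at hv2
    rw [Real.norm_eq_abs, hA']
    refine (hest v hv).trans ?_
    have := hωt ‖v‖ (norm_nonneg _)
    have h0 := norm_nonneg v
    nlinarith [hω0 ‖v‖ h0]
  refine ⟨hfd.differentiableAt, fun v hv => ?_⟩
  rw [hfd.fderiv]
  exact hest v hv

/-- the basic comparison of derivatives -/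
lemma key (ω : ℝ → ℝ) (hω0 : ∀ t, 0 ≤ t → 0 ≤ ω t) (hωt : ∀ t, 0 ≤ t → ω t ≤ t) (G : Set E)
    (hGo : IsOpen G) (hGc : Convex ℝ G) (f : E → ℝ) (hSD : SD ω G f) (p q h : E) (hp : p ∈ G)
    (hq : q ∈ G) (hph : p + h ∈ G) :
    |(fderiv ℝ f p - fderiv ℝ f q) h| ≤
      ‖h‖ * ω ‖h‖ + ‖p + h - q‖ * ω ‖p + h - q‖ + ‖p - q‖ * ω ‖p - q‖ := by
  have h1 := (taylor ω hω0 hωt G hGo hGc f hSD p hp).2 h hph
  have h2 := (taylor ω hω0 hωt G hGo hGc f hSD q hq).2 (p + h - q) (by rwa [add_sub_cancel])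
  have h3 := (taylor ω hω0 hωt G hGo hGc f hSD q hq).2 (p - q) (by rwa [add_sub_cancel])
  rw [add_sub_cancel] at h2 h3
  have h4 : (fderiv ℝ f p - fderiv ℝ f q) h = -(f (p + h) - f p - fderiv ℝ f p h) +
      (f (p + h) - f q - fderiv ℝ f q (p + h - q)) - (f p - f q - fderiv ℝ f q (p - q)) := by
    rw [sub_apply, map_sub, map_sub, map_add]
    ring
  rw [h4]
  calc |-(f (p + h) - f p - fderiv ℝ f p h) + (f (p + h) - f q - fderiv ℝ f q (p + h - q)) -
        (f p - f q - fderiv ℝ f q (p - q))|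
      ≤ |-(f (p + h) - f p - fderiv ℝ f p h) + (f (p + h) - f q - fderiv ℝ f q (p + h - q))| +
        |f p - f q - fderiv ℝ f q (p - q)| := abs_sub _ _
    _ ≤ |-(f (p + h) - f p - fderiv ℝ f p h)| + |f (p + h) - f q - fderiv ℝ f q (p + h - q)| +
        |f p - f q - fderiv ℝ f q (p - q)| := by gcongr; exact abs_add_le _ _
    _ ≤ _ := by rw [abs_neg]; linarith

end Pool.Agent.Q265.SC
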