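import Mathlib
import Pool.Agent.Q265.SC.Tay
import Pool.Agent.Q265.SC.Om

set_option autoImplicit false
set_option maxHeartbeats 4000000
set_option linter.deprecated false

open Filter Topology Set

namespace Pool.Agent.Q265.SC

variable {n : ℕ}

/-- the paraboloid region `z_{i₀}² < z_{i₁}` -/
def par (i0 i1 : Fin n) : Set (EuclideanSpace ℝ (Fin n)) := {z | z i0 ^ 2 < z i1}

lemma par_open (i0 i1 : Fin n) : IsOpen (par i0 i1) := by
  unfold par
  exact isOpen_lt (by fun_prop) (by fun_prop)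

lemma par_convex (i0 i1 : Fin n) : Convex ℝ (par i0 i1) := by
  intro x hx y hy a b ha hb hab
  have hx' : x i0 ^ 2 < x i1 := hx
  have hy' : y i0 ^ 2 < y i1 := hy
  change (a • x + b • y) i0 ^ 2 < (a • x + b • y) i1
  simp only [PiLp.add_apply, PiLp.smul_apply, smul_eq_mul]
  have hb' : b = 1 - a := by linarith
  subst hb'
  rcases eq_or_lt_of_le ha with h | h
  · rw [← h]; simpa using hy'
  · nlinarith [mul_pos h (sub_pos.2 hx'), mul_nonneg hb (sub_pos.2 hy').le,
      mul_nonneg (mul_nonneg ha hb) (sq_nonneg (x i0 - y i0))]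

lemma single_mem (i0 i1 : Fin n) (h : i0 ≠ i1) (t : ℝ) (ht : 0 < t) :
    EuclideanSpace.single i1 t ∈ par i0 i1 := by
  change (EuclideanSpace.single i1 t) i0 ^ 2 < (EuclideanSpace.single i1 t) i1
  simp [h, ht]

lemma par_unbounded (i0 i1 : Fin n) (h : i0 ≠ i1) : ¬ Bornology.IsBounded (par i0 i1) := by
  intro hb
  rw [isBounded_iff_forall_norm_le] at hb
  obtain ⟨C, hC⟩ := hb
  have h1 := hC _ (single_mem i0 i1 h (|C| + 1) (by positivity))
  rw [EuclideanSpace.norm_single, Real.norm_eq_abs, abs_of_pos (by positivity)] at h1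
  linarith [le_abs_self C]

lemma par_coneFree (i0 i1 : Fin n) : ConeFree (par i0 i1) := by
  rintro ⟨a, C, -, hC2, ⟨c, hc⟩, hC4⟩
  -- a point of the cone with nonzero coordinate `i0`
  obtain ⟨v, hv, hv0⟩ : ∃ v ∈ C, v i0 ≠ 0 := by
    by_cases h : c i0 = 0
    · obtain ⟨r, hr, hr2⟩ := Metric.isOpen_iff.1 isOpen_interior c hc
      refine ⟨c + EuclideanSpace.single i0 (r / 2), interior_subset (hr2 ?_), ?_⟩
      · rw [mem_ball_iff_norm, add_sub_cancel_left, EuclideanSpace.norm_single, Real.norm_of_nonneg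
          (by positivity)]
        linarith
      · simp [h]; exact hr.ne'
    · exact ⟨c, interior_subset hc, h⟩
  have h1 : ∀ l : ℝ, 0 < l → (a i0 + l * v i0) ^ 2 < a i1 + l * v i1 := by
    intro l hl
    have := hC4 _ (hC2 v hv l hl)
    exact this
  have hpos : 0 < v i0 ^ 2 := by positivity
  -- large `l`
  set l : ℝ := (|a i1| + |v i1| + 2 * |a i0| * |v i0| + 1) / v i0 ^ 2 + 1 with hl
  have hl1 : 1 ≤ l := by
    have : 0 ≤ (|a i1| + |v i1| + 2 * |a i0| * |v i0| + 1) / v i0 ^ 2 := by positivity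
    linarith
  have h2 := h1 l (by linarith)
  have h3 : |a i1| + |v i1| + 2 * |a i0| * |v i0| + 1 ≤ l * v i0 ^ 2 := by
    have h4 : (|a i1| + |v i1| + 2 * |a i0| * |v i0| + 1) / v i0 ^ 2 ≤ l := by linarith
    rwa [div_le_iff₀ hpos] at h4
  have h4 : l * (|a i1| + |v i1| + 2 * |a i0| * |v i0| + 1) ≤ l * (l * v i0 ^ 2) := by gcongr
  have h5 : -(|a i0| * |v i0|) ≤ a i0 * v i0 := by
    rw [← abs_mul]; exact neg_abs_le _
  have h6 := le_abs_self (a i1)
  have h7 := le_abs_self (v i1)
  have h8 : l * (-(|a i0| * |v i0|)) ≤ l * (a i0 * v i0) := by gcongr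
  have h9 : l * v i1 ≤ l * |v i1| := by gcongr
  have h10 : |a i1| ≤ l * |a i1| := by nlinarith [abs_nonneg (a i1)]
  nlinarith [sq_nonneg (a i0)]

lemma norm_le_sum (T : EuclideanSpace ℝ (Fin n) →L[ℝ] ℝ) (c : ℝ)
    (h : ∀ j : Fin n, |T (EuclideanSpace.single j 1)| ≤ c) (hc : 0 ≤ c) : ‖T‖ ≤ n * c := by
  refine T.opNorm_le_bound (by positivity) fun v => ?_
  have h1 : v = ∑ j, v j • EuclideanSpace.single j (1:ℝ) := by
    ext i
    simp [Finset.sum_apply, Pi.single_apply]
  have h2 : T v = ∑ j, v j * T (EuclideanSpace.single j 1) := by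
    conv_lhs => rw [h1]
    rw [map_sum]
    simp [map_smul]
  rw [h2, Real.norm_eq_abs]
  calc |∑ j, v j * T (EuclideanSpace.single j 1)| ≤ ∑ j, |v j * T (EuclideanSpace.single j 1)| :=
        Finset.abs_sum_le_sum_abs _ _
    _ ≤ ∑ _j : Fin n, ‖v‖ * c := by
        refine Finset.sum_le_sum fun j _ => ?_
        rw [abs_mul]
        have h3 : |v j| ≤ ‖v‖ := by
          have := PiLp.norm_apply_le v j
          rwa [Real.norm_eq_abs] at this
        have := h j
        gcongr
    _ = _ := by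
        rw [Finset.sum_const, Finset.card_univ, Fintype.card_fin, nsmul_eq_mul]; ring

section main

variable (i0 i1 : Fin n) (hi : i0 ≠ i1) (f : EuclideanSpace ℝ (Fin n) → ℝ)
  (hSD : SD om (par i0 i1) f)

include hi hSD

lemma local_est (p q : EuclideanSpace ℝ (Fin n)) (hp : p ∈ par i0 i1) (hq : q ∈ par i0 i1)
    (hs : ‖p - q‖ ^ 2 < p i1 + ‖p - q‖) :
    ‖fderiv ℝ f p - fderiv ℝ f q‖ ≤ n * (20 * om ‖p - q‖) := by
  have hp' : p i0 ^ 2 < p i1 := hp
  set s := ‖p - q‖ with hsdef
  have hs0 : 0 ≤ s := norm_nonneg _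
  have hom : 0 ≤ om s := om_nonneg hs0
  rcases eq_or_lt_of_le hs0 with h | hspos
  · have : p = q := by rw [eq_comm, hsdef, norm_eq_zero, sub_eq_zero] at h; exact h
    rw [this, sub_self, norm_zero]; positivity
  set T := fderiv ℝ f p - fderiv ℝ f q with hT
  have hkey : ∀ (h : EuclideanSpace ℝ (Fin n)) (a b : ℝ), p + h ∈ par i0 i1 → 1 ≤ a → 1 ≤ b →
      ‖h‖ ≤ a * s → ‖p + h - q‖ ≤ b * s → |T h| ≤ (a ^ 2 + b ^ 2 + 1) * (s * om s) := by
    intro h a b hph ha hb h1 h2
    have h3 := key om (fun t ht => om_nonneg ht) (fun t ht => om_le ht) (par i0 i1) (par_open i0 i1)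
      (par_convex i0 i1) f hSD p q h hp hq hph
    have h4 : ‖h‖ * om ‖h‖ ≤ a ^ 2 * (s * om s) := by
      calc ‖h‖ * om ‖h‖ ≤ (a * s) * om (a * s) := by
            have := om_le_om (norm_nonneg h) h1
            have := om_nonneg (norm_nonneg h)
            gcongr
        _ ≤ (a * s) * (a * om s) := by
            have := om_mul_le hs0 ha
            gcongr
        _ = _ := by ring
    have h5 : ‖p + h - q‖ * om ‖p + h - q‖ ≤ b ^ 2 * (s * om s) := by
      calc ‖p + h - q‖ * om ‖p + h - q‖ ≤ (b * s) * om (b * s) := by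
            have := om_le_om (norm_nonneg (p + h - q)) h2
            have := om_nonneg (norm_nonneg (p + h - q))
            gcongr
        _ ≤ (b * s) * (b * om s) := by
            have := om_mul_le hs0 hb
            gcongr
        _ = _ := by ring
    refine h3.trans ?_
    linarith
  have hsum : ∀ h : EuclideanSpace ℝ (Fin n), ‖p + h - q‖ ≤ s + ‖h‖ := by
    intro h
    have : p + h - q = (p - q) + h := by abel
    rw [this]; exact norm_add_le _ _
  have hnorm1 : ∀ j : Fin n, ‖s • EuclideanSpace.single j (1:ℝ)‖ = s := by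
    intro j
    rw [norm_smul, EuclideanSpace.norm_single, norm_one, mul_one, Real.norm_of_nonneg hs0]
  have hother : ∀ j : Fin n, j ≠ i0 → |T (EuclideanSpace.single j 1)| ≤ 6 * om s := by
    intro j hj
    have h1 := hkey (s • EuclideanSpace.single j (1:ℝ)) 1 2 (by
      change (p + s • EuclideanSpace.single j (1:ℝ)) i0 ^ 2 < (p + s • EuclideanSpace.single j (1:ℝ)) i1
      simp only [PiLp.add_apply, PiLp.smul_apply, EuclideanSpace.single_apply, smul_eq_mul]
      rw [if_neg (Ne.symm hj)]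
      split_ifs <;> simp <;> linarith) le_rfl (by norm_num) (by rw [hnorm1, one_mul])
      (by have := hsum (s • EuclideanSpace.single j (1:ℝ)); rw [hnorm1] at this; linarith)
    rw [map_smul, smul_eq_mul, abs_mul, abs_of_pos hspos] at h1
    have h2 : s * |T (EuclideanSpace.single j 1)| ≤ s * (6 * om s) := by
      refine h1.trans (le_of_eq ?_); ring
    exact le_of_mul_le_mul_left h2 hspos
  have hi0 : |T (EuclideanSpace.single i0 1)| ≤ 20 * om s := by
    -- the sign
    obtain ⟨σ, hσ, hσ2⟩ : ∃ σ : ℝ, |σ| = 1 ∧ (p i0 + σ * s) ^ 2 < p i1 + s := by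
      by_cases h0 : 0 ≤ p i0
      · refine ⟨-1, by simp, ?_⟩
        by_cases h1 : s ≤ 2 * p i0
        · nlinarith
        · rw [not_le] at h1
          nlinarith
      · rw [not_le] at h0
        refine ⟨1, by simp, ?_⟩
        by_cases h1 : s ≤ -(2 * p i0)
        · nlinarith
        · rw [not_le] at h1
          nlinarith
    set h := (σ * s) • EuclideanSpace.single i0 (1:ℝ) + s • EuclideanSpace.single i1 (1:ℝ) with hh
    have hn : ‖h‖ ≤ 2 * s := by
      refine (norm_add_le _ _).trans ?_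
      rw [norm_smul, EuclideanSpace.norm_single, norm_one, mul_one, Real.norm_eq_abs, abs_mul, hσ,
        one_mul, abs_of_pos hspos, hnorm1]
      linarith
    have h1 := hkey h 2 3 (by
      change (p + h) i0 ^ 2 < (p + h) i1
      simp only [hh, PiLp.add_apply, PiLp.smul_apply, EuclideanSpace.single_apply, smul_eq_mul]
      simp only [if_true, if_neg hi, if_neg (Ne.symm hi), mul_one, mul_zero, add_zero, zero_add]
      exact hσ2) (by norm_num) (by norm_num) hn (by have := hsum h; linarith)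
    have h2 := hother i1 (Ne.symm hi)
    have h3 : T h = σ * s * T (EuclideanSpace.single i0 1) + s * T (EuclideanSpace.single i1 1) := by
      rw [hh, map_add, map_smul, map_smul, smul_eq_mul, smul_eq_mul]
    have h4 : s * |T (EuclideanSpace.single i0 1)| ≤ s * (20 * om s) := by
      have e1 : |σ * s * T (EuclideanSpace.single i0 1)| = s * |T (EuclideanSpace.single i0 1)| := by
        rw [abs_mul, abs_mul, hσ, one_mul, abs_of_pos hspos]
      rw [← e1]
      have e2 : σ * s * T (EuclideanSpace.single i0 1) = T h - s * T (EuclideanSpace.single i1 1) := by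
        rw [h3]; ring
      rw [e2]
      calc |T h - s * T (EuclideanSpace.single i1 1)| ≤ |T h| + |s * T (EuclideanSpace.single i1 1)| :=
            abs_sub _ _
        _ ≤ (2 ^ 2 + 3 ^ 2 + 1) * (s * om s) + s * (6 * om s) := by
            rw [abs_mul, abs_of_pos hspos]
            gcongr
        _ = _ := by ring
    exact le_of_mul_le_mul_left h4 hspos
  refine norm_le_sum T (20 * om s) (fun j => ?_) (by positivity)
  by_cases hj : j = i0
  · rw [hj]; exact hi0
  · refine (hother j hj).trans ?_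
    linarith

lemma chain_est (P Q : EuclideanSpace ℝ (Fin n)) (l : ℝ) (hl : 1 / 2 ≤ l) (hP0 : P i0 = 0)
    (hQ0 : Q i0 = 0) (hP1 : l ≤ P i1) (hQ1 : l ≤ Q i1) (hPQ : ‖P - Q‖ ≤ l) :
    ‖fderiv ℝ f P - fderiv ℝ f Q‖ ≤ n * (60 * om l) := by
  have hl0 : 0 < l := by linarith
  have hs0 : 0 < √l := Real.sqrt_pos.2 hl0
  have hN0 : 0 < ⌈√l⌉₊ := Nat.ceil_pos.2 hs0
  set N := ⌈√l⌉₊ with hN
  have hNpos : (0:ℝ) < N := by exact_mod_cast hN0
  have hNl : √l ≤ N := Nat.le_ceil _
  have hsq : √l ^ 2 = l := Real.sq_sqrt hl0.le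
  have hdl : l / N ≤ √l := by
    rw [div_le_iff₀ hNpos]; nlinarith
  set R : ℕ → EuclideanSpace ℝ (Fin n) := fun i => P + ((i:ℝ) / N) • (Q - P) with hR
  have hR0 : ∀ i, R i i0 = 0 := by
    intro i
    simp [hR, hP0, hQ0]
  have hR1 : ∀ i, i ≤ N → l ≤ R i i1 := by
    intro i hi'
    have h1 : (i:ℝ) / N ≤ 1 := by rw [div_le_one hNpos]; exact_mod_cast hi'
    have h2 : 0 ≤ (i:ℝ) / N := by positivity
    simp only [hR, PiLp.add_apply, PiLp.smul_apply, PiLp.sub_apply, smul_eq_mul]
    nlinarith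
  have hRG : ∀ i, i ≤ N → R i ∈ par i0 i1 := by
    intro i hi'
    change R i i0 ^ 2 < R i i1
    rw [hR0]
    have := hR1 i hi'
    simp only [ne_eq, OfNat.ofNat_ne_zero, not_false_eq_true, zero_pow]
    linarith
  have hRd : ∀ i, ‖R i - R (i + 1)‖ ≤ l / N := by
    intro i
    have : R i - R (i + 1) = (1 / (N:ℝ)) • (P - Q) := by
      simp only [hR]
      push_cast
      rw [add_sub_add_left_eq_sub, ← sub_smul]
      have : (i:ℝ) / N - (i + 1) / N = -(1 / N) := by ring
      rw [this, neg_smul, ← smul_neg, neg_sub]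
    rw [this, norm_smul, Real.norm_of_nonneg (by positivity)]
    calc 1 / (N:ℝ) * ‖P - Q‖ ≤ 1 / (N:ℝ) * l := by gcongr
      _ = _ := by ring
  have hind : ∀ i, i ≤ N → ‖fderiv ℝ f (R 0) - fderiv ℝ f (R i)‖ ≤ i * (n * (20 * om (l / N))) := by
    intro i
    induction i with
    | zero => intro _; simp
    | succ i ih =>
      intro hi'
      have h1 := ih (by omega)
      have h2 := local_est i0 i1 hi f hSD (R i) (R (i + 1)) (hRG i (by omega)) (hRG (i + 1) hi') (by
        have e1 := hR1 i (by omega)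
        have e2 := hRd i
        have e3 := norm_nonneg (R i - R (i + 1))
        have e4 : ‖R i - R (i + 1)‖ ^ 2 ≤ l := by
          have e5 : ‖R i - R (i + 1)‖ ≤ √l := e2.trans hdl
          calc ‖R i - R (i + 1)‖ ^ 2 ≤ √l ^ 2 := by gcongr
            _ = l := hsq
        rcases eq_or_lt_of_le e3 with h | h
        · rw [← h]; nlinarith
        · linarith)
      have h3 : om ‖R i - R (i + 1)‖ ≤ om (l / N) := om_le_om (norm_nonneg _) (hRd i)
      calc ‖fderiv ℝ f (R 0) - fderiv ℝ f (R (i + 1))‖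
          = ‖(fderiv ℝ f (R 0) - fderiv ℝ f (R i)) + (fderiv ℝ f (R i) - fderiv ℝ f (R (i + 1)))‖ := by
            congr 1; abel
        _ ≤ ‖fderiv ℝ f (R 0) - fderiv ℝ f (R i)‖ + ‖fderiv ℝ f (R i) - fderiv ℝ f (R (i + 1))‖ :=
            norm_add_le _ _
        _ ≤ i * (n * (20 * om (l / N))) + n * (20 * om (l / N)) := by
            refine add_le_add h1 (h2.trans ?_)
            gcongr
        _ = _ := by push_cast; ring
  have h1 := hind N le_rfl
  have e0 : R 0 = P := by simp [hR]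
  have e1 : R N = Q := by
    simp only [hR]
    rw [div_self hNpos.ne', one_smul]; abel
  rw [e0, e1] at h1
  refine h1.trans ?_
  have h2 := om_steps hl
  calc (N:ℝ) * (n * (20 * om (l / N))) = n * (20 * (N * om (l / N))) := by ring
    _ ≤ n * (20 * (3 * om l)) := by gcongr
    _ = _ := by ring

lemma vert_est (k : ℕ) : ∀ (P : EuclideanSpace ℝ (Fin n)) (l : ℝ), P i0 = 0 → 0 < P i1 → 0 ≤ l →
    l ≤ 2 ^ k → ‖fderiv ℝ f P - fderiv ℝ f (P + EuclideanSpace.single i1 l)‖ ≤ n * (340 * om l) := by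
  have hmem : ∀ (P : EuclideanSpace ℝ (Fin n)) (l : ℝ), P i0 = 0 → 0 < P i1 → 0 ≤ l →
      P + EuclideanSpace.single i1 l ∈ par i0 i1 := by
    intro P l h1 h2 h3
    change (P + EuclideanSpace.single i1 l) i0 ^ 2 < (P + EuclideanSpace.single i1 l) i1
    simp only [PiLp.add_apply, EuclideanSpace.single_apply, if_neg hi, h1, if_true]
    simp only [add_zero, ne_eq, OfNat.ofNat_ne_zero, not_false_eq_true, zero_pow]
    linarith
  have hbase : ∀ (P : EuclideanSpace ℝ (Fin n)) (l : ℝ), P i0 = 0 → 0 < P i1 → 0 ≤ l → l ≤ 1 →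
      ‖fderiv ℝ f P - fderiv ℝ f (P + EuclideanSpace.single i1 l)‖ ≤ n * (340 * om l) := by
    intro P l h1 h2 h3 h4
    have hd : ‖P - (P + EuclideanSpace.single i1 l)‖ = l := by
      rw [sub_add_cancel_left, norm_neg, EuclideanSpace.norm_single, Real.norm_of_nonneg h3]
    have hP : P ∈ par i0 i1 := by
      change P i0 ^ 2 < P i1
      rw [h1]; simpa using h2
    have h5 := local_est i0 i1 hi f hSD P _ hP (hmem P l h1 h2 h3) (by rw [hd]; nlinarith)
    rw [hd] at h5
    refine h5.trans ?_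
    have := om_nonneg h3
    gcongr
    norm_num
  induction k with
  | zero =>
    intro P l h1 h2 h3 h4
    exact hbase P l h1 h2 h3 (by simpa using h4)
  | succ k ih =>
    intro P l h1 h2 h3 h4
    by_cases h5 : l ≤ 1
    · exact hbase P l h1 h2 h3 h5
    rw [not_le] at h5
    have h6 := ih P (l / 2) h1 h2 (by linarith) (by rw [pow_succ] at h4; linarith)
    have h7 := chain_est i0 i1 hi f hSD (P + EuclideanSpace.single i1 (l / 2))
      (P + EuclideanSpace.single i1 l) (l / 2) (by linarith)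
      (by simp [h1, hi]) (by simp [h1, hi])
      (by simp only [PiLp.add_apply, EuclideanSpace.single_apply, if_true]; linarith)
      (by simp only [PiLp.add_apply, EuclideanSpace.single_apply, if_true]; linarith)
      (by
        have : P + EuclideanSpace.single i1 (l / 2) - (P + EuclideanSpace.single i1 l) =
            EuclideanSpace.single i1 (-(l / 2)) := by
          ext j
          simp only [PiLp.add_apply, PiLp.sub_apply, EuclideanSpace.single_apply]
          split_ifs <;> ring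
        rw [this, EuclideanSpace.norm_single, norm_neg, Real.norm_of_nonneg (by linarith)])
    have h8 := om_half h3
    calc ‖fderiv ℝ f P - fderiv ℝ f (P + EuclideanSpace.single i1 l)‖
        = ‖(fderiv ℝ f P - fderiv ℝ f (P + EuclideanSpace.single i1 (l / 2))) +
          (fderiv ℝ f (P + EuclideanSpace.single i1 (l / 2)) -
            fderiv ℝ f (P + EuclideanSpace.single i1 l))‖ := by congr 1; abel
      _ ≤ n * (340 * om (l / 2)) + n * (60 * om (l / 2)) := (norm_add_le _ _).trans (add_le_add h6 h7)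
      _ = n * (400 * om (l / 2)) := by ring
      _ ≤ n * (400 * (17 / 20 * om l)) := by gcongr
      _ = _ := by ring

lemma neg_main (p q : EuclideanSpace ℝ (Fin n)) (hp : p ∈ par i0 i1) (hq : q ∈ par i0 i1) :
    ‖fderiv ℝ f p - fderiv ℝ f q‖ ≤ n * (780 * om ‖p - q‖) := by
  have hp' : p i0 ^ 2 < p i1 := hp
  have hq' : q i0 ^ 2 < q i1 := hq
  set s := ‖p - q‖ with hs
  have hs0 : 0 ≤ s := norm_nonneg _
  have hom : 0 ≤ om s := om_nonneg hs0
  by_cases h1 : s ^ 2 < p i1 + s
  · refine (local_est i0 i1 hi f hSD p q hp hq h1).trans ?_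
    gcongr
    norm_num
  by_cases h2 : s ^ 2 < q i1 + s
  · have h3 : ‖q - p‖ = s := by rw [norm_sub_rev]
    have h4 := local_est i0 i1 hi f hSD q p hq hp (by rw [h3]; exact h2)
    rw [norm_sub_rev, h3] at h4
    refine h4.trans ?_
    gcongr
    norm_num
  rw [not_lt] at h1 h2
  have hs1 : 1 ≤ s := by
    by_contra h
    rw [not_le] at h
    nlinarith [sq_nonneg (p i0)]
  -- projection to `z_{i0} = 0`
  have hproj : ∀ r : EuclideanSpace ℝ (Fin n), r ∈ par i0 i1 → r i1 + s ≤ s ^ 2 →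
      ∃ r0 : EuclideanSpace ℝ (Fin n), r0 = r - EuclideanSpace.single i0 (r i0) ∧ r0 i0 = 0 ∧
        r0 i1 = r i1 ∧ ‖fderiv ℝ f r - fderiv ℝ f r0‖ ≤ n * (20 * om s) := by
    intro r hr hrs
    have hr' : r i0 ^ 2 < r i1 := hr
    have e1 : (r - EuclideanSpace.single i0 (r i0)) i0 = 0 := by simp
    have e2 : (r - EuclideanSpace.single i0 (r i0)) i1 = r i1 := by simp [Ne.symm hi]
    refine ⟨r - EuclideanSpace.single i0 (r i0), rfl, e1, e2, ?_⟩
    have hn : ‖r - (r - EuclideanSpace.single i0 (r i0))‖ = |r i0| := by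
      rw [sub_sub_cancel, EuclideanSpace.norm_single, Real.norm_eq_abs]
    have e3 : r - EuclideanSpace.single i0 (r i0) ∈ par i0 i1 := by
      change (r - EuclideanSpace.single i0 (r i0)) i0 ^ 2 < (r - EuclideanSpace.single i0 (r i0)) i1
      rw [e1, e2]
      nlinarith [sq_nonneg (r i0)]
    have h3 := local_est i0 i1 hi f hSD r _ hr e3 (by
      rw [hn, sq_abs]
      have := abs_nonneg (r i0)
      linarith)
    rw [hn] at h3
    refine h3.trans ?_
    have h4 : |r i0| ≤ s := by
      apply abs_le_of_sq_le_sq _ hs0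
      nlinarith
    have := om_le_om (abs_nonneg (r i0)) h4
    gcongr
  obtain ⟨p0, hp0, hp1, hp2, hp3⟩ := hproj p hp (by linarith)
  obtain ⟨q0, hq0, hq1, hq2, hq3⟩ := hproj q hq (by linarith)
  obtain ⟨k, hk⟩ := pow_unbounded_of_one_lt s (by norm_num : (1:ℝ) < 2)
  have hpp : 0 < p0 i1 := by rw [hp2]; nlinarith [sq_nonneg (p i0)]
  have hqq : 0 < q0 i1 := by rw [hq2]; nlinarith [sq_nonneg (q i0)]
  have h3 := vert_est i0 i1 hi f hSD k p0 s hp1 hpp hs0 hk.le
  have h4 := vert_est i0 i1 hi f hSD k q0 s hq1 hqq hs0 hk.le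
  have hd : ‖p0 - q0‖ ≤ s := by
    rw [hs, EuclideanSpace.norm_eq, EuclideanSpace.norm_eq]
    apply Real.sqrt_le_sqrt
    refine Finset.sum_le_sum fun j _ => ?_
    have : |(p0 - q0) j| ≤ |(p - q) j| := by
      rw [hp0, hq0]
      simp only [PiLp.sub_apply, EuclideanSpace.single_apply]
      split_ifs with h
      · rw [h]; simp
      · simp
    rw [Real.norm_eq_abs, Real.norm_eq_abs]
    gcongr
  have h5 := chain_est i0 i1 hi f hSD (p0 + EuclideanSpace.single i1 s) (q0 + EuclideanSpace.single i1 s) s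
    (by linarith) (by simp [hp1, hi]) (by simp [hq1, hi])
    (by simp only [PiLp.add_apply, EuclideanSpace.single_apply, if_true]; linarith)
    (by simp only [PiLp.add_apply, EuclideanSpace.single_apply, if_true]; linarith)
    (by rwa [add_sub_add_right_eq_sub])
  set A := fderiv ℝ f p
  set B := fderiv ℝ f q
  set A0 := fderiv ℝ f p0
  set B0 := fderiv ℝ f q0
  set A1 := fderiv ℝ f (p0 + EuclideanSpace.single i1 s)
  set B1 := fderiv ℝ f (q0 + EuclideanSpace.single i1 s)
  have h6 : ‖A - B‖ ≤ ‖A - A0‖ + ‖A0 - A1‖ + ‖A1 - B1‖ + ‖B0 - B1‖ + ‖B - B0‖ := by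
    have e1 : A - B = (A - A0) + (A0 - A1) + (A1 - B1) - (B0 - B1) - (B - B0) := by abel
    rw [e1]
    refine (norm_sub_le _ _).trans (add_le_add_left ((norm_sub_le _ _).trans
      (add_le_add_left ((norm_add_le _ _).trans (add_le_add_left (norm_add_le _ _) _)) _)) _)
  refine h6.trans ?_
  calc ‖A - A0‖ + ‖A0 - A1‖ + ‖A1 - B1‖ + ‖B0 - B1‖ + ‖B - B0‖
      ≤ n * (20 * om s) + n * (340 * om s) + n * (60 * om s) + n * (340 * om s) + n * (20 * om s) := by
        gcongr
    _ = _ := by ring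

end main

/-- the negative part -/
lemma neg (hn : 2 ≤ n) : ∃ G : Set (EuclideanSpace ℝ (Fin n)), IsOpen G ∧ Convex ℝ G ∧
    ¬ Bornology.IsBounded G ∧ ConeFree G ∧ ∀ f : EuclideanSpace ℝ (Fin n) → ℝ,
      Semiconvex om G f → Semiconcave om G f → InC1 om G f := by
  set i0 : Fin n := ⟨0, by omega⟩ with hi0
  set i1 : Fin n := ⟨1, by omega⟩ with hi1
  have hi : i0 ≠ i1 := by
    intro h
    rw [hi0, hi1] at h
    simp at h
  refine ⟨par i0 i1, par_open i0 i1, par_convex i0 i1, par_unbounded i0 i1 hi, par_coneFree i0 i1, ?_⟩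
  intro f h1 h2
  have hSD := SD.of om (par i0 i1) f h1 h2
  refine ⟨fun x hx => (taylor om (fun t ht => om_nonneg ht) (fun t ht => om_le ht) (par i0 i1)
    (par_open i0 i1) (par_convex i0 i1) f hSD x hx).1, n * 780, ?_, fun x hx y hy => ?_⟩
  · have : (0:ℝ) < n := by exact_mod_cast (by omega : 0 < n)
    positivity
  · have := neg_main i0 i1 hi f hSD x y hx hy
    refine this.trans (le_of_eq ?_)
    ring

end Pool.Agent.Q265.SC
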