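import Mathlib
import Pool.Agent.Q265.SC.Est

set_option autoImplicit false
set_option maxHeartbeats 4000000

open Filter Topology Set
open scoped InnerProductSpace

namespace Pool.Agent.Q265.SC

variable {E : Type*} [NormedAddCommGroup E] [InnerProductSpace ℝ E] [FiniteDimensional ℝ E]

lemma pos0 (G : Set E) (hGo : IsOpen G) (hGc : Convex ℝ G) (h0 : (0:E) ∈ G)
    (hub : ¬ Bornology.IsBounded G) (hcf : ConeFree G) (α : ℝ) (hα0 : 0 < α) (hα1 : α < 1) :
    ∃ f : E → ℝ, Semiconvex (fun t => t ^ α) G f ∧ Semiconcave (fun t => t ^ α) G f ∧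
      ¬ InC1 (fun t => t ^ α) G f := by
  classical
  obtain ⟨u, hu, hthin⟩ := exists_thin G hGo hGc h0 hcf
  obtain ⟨χ, χ', χ'', c, hc, h1, h2, hb0, hb1, hb2, hs, hone⟩ := exists_cutoff
  have hc0 : 0 < c := by linarith
  have h1α : 0 < 1 - α := by linarith
  set ε : ℕ → ℝ := fun k => (4:ℝ) ^ (-((k:ℝ) / (1 - α))) with hε
  have hεpos : ∀ k, 0 < ε k := fun k => Real.rpow_pos_of_pos (by norm_num) _
  have hεle : ∀ k, ε k ≤ 1 := fun k => Real.rpow_le_one_of_one_le_of_nonpos (by norm_num)
    (neg_nonpos.2 (by positivity))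
  choose Y0 hY0 hY0' using fun k => hthin (ε k) (hεpos k)
  set Y : ℕ → ℝ := fun k => 3 ^ k * (1 + ∑ i ∈ Finset.range (k + 1), Y0 i) with hY
  have hsum0 : ∀ k, 0 ≤ ∑ i ∈ Finset.range (k + 1), Y0 i := fun k =>
    Finset.sum_nonneg fun i _ => (hY0 i).le
  have hY3 : ∀ k, (3:ℝ) ^ k ≤ Y k := by
    intro k
    have := hsum0 k
    have h3 : (0:ℝ) < 3 ^ k := by positivity
    simp only [hY]
    nlinarith
  have hYpos : ∀ k, 0 < Y k := fun k => lt_of_lt_of_le (by positivity) (hY3 k)
  have hYk : ∀ k : ℕ, (k:ℝ) ≤ Y k := by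
    intro k
    refine le_trans ?_ (hY3 k)
    exact_mod_cast (Nat.lt_pow_self (by norm_num : 1 < 3)).le
  have hYY0 : ∀ k, Y0 k ≤ Y k := by
    intro k
    have h3 : Y0 k ≤ ∑ i ∈ Finset.range (k + 1), Y0 i :=
      Finset.single_le_sum (f := Y0) (fun i _ => (hY0 i).le) (Finset.mem_range.2 (Nat.lt_succ_self k))
    have h4 : (1:ℝ) ≤ 3 ^ k := one_le_pow₀ (by norm_num)
    have := hsum0 k
    simp only [hY]
    nlinarith
  have hYsucc : ∀ k, 2 * Y k < Y (k + 1) := by
    intro k
    have h3 : 3 * Y k ≤ Y (k + 1) := by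
      simp only [hY]
      rw [Finset.sum_range_succ _ (k + 1), pow_succ]
      have := (hY0 (k + 1)).le
      have h4 : (0:ℝ) < 3 ^ k := by positivity
      nlinarith [mul_nonneg h4.le this]
    have := hYpos k
    linarith
  have hYmono : ∀ j k, j < k → 2 * Y j < Y k := by
    intro j k hjk
    induction k with
    | zero => exact absurd hjk (Nat.not_lt_zero _)
    | succ k ih =>
      rcases Nat.lt_succ_iff_lt_or_eq.1 hjk with h | h
      · have := ih h
        have := hYsucc k
        have := hYpos k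
        linarith
      · rw [h]; exact hYsucc k
  set w : ℕ → ℝ := fun k => ε k * Y k with hw
  have hwpos : ∀ k, 0 < w k := fun k => mul_pos (hεpos k) (hYpos k)
  have hwY : ∀ k, w k ≤ Y k := fun k => by
    have := hεle k
    have := hYpos k
    simp only [hw]
    nlinarith
  set A : ℕ → ℝ := fun k => Y k * w k ^ (α - 1) / (42 * c) with hA
  have hApos : ∀ k, 0 < A k := fun k => by
    have := hYpos k
    have := Real.rpow_pos_of_pos (hwpos k) (α - 1)
    simp only [hA]
    positivity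
  set F : ℕ → E → ℝ := fun k z => (1 / 2) ^ (k + 1) * (A k * blk u χ (Y k) z) with hF
  have hF0 : ∀ k z, ¬ (Y k < ‖z‖ ∧ ‖z‖ < 2 * Y k) → F k z = 0 := by
    intro k z hz
    have h3 : ‖z‖ ^ 2 / Y k ^ 2 ∉ Ioo (1:ℝ) 4 := by
      intro hmem
      apply hz
      have hYk0 := hYpos k
      constructor
      · have h4 := hmem.1
        rw [lt_div_iff₀ (by positivity), one_mul] at h4
        exact lt_of_pow_lt_pow_left₀ 2 (norm_nonneg _) h4
      · have h4 := hmem.2
        rw [div_lt_iff₀ (by positivity)] at h4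
        have h5 : ‖z‖ ^ 2 < (2 * Y k) ^ 2 := by nlinarith
        exact lt_of_pow_lt_pow_left₀ 2 (by positivity) h5
    simp only [hF, blk, (hs _ h3).1]
    ring
  have hFN : ∀ (N : ℕ) (z : E), ‖z‖ < N → ∀ k ∉ Finset.range N, F k z = 0 := by
    intro N z hz k hk
    apply hF0
    rintro ⟨h3, -⟩
    have h4 : (N:ℝ) ≤ k := by
      have := Finset.mem_range.not.1 hk
      exact_mod_cast not_lt.1 this
    have := hYk k
    linarith
  set f : E → ℝ := fun z => ∑' k, F k z with hf
  have hsummable : ∀ z, Summable (fun k => F k z) := by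
    intro z
    obtain ⟨N, hN⟩ := exists_nat_gt ‖z‖
    exact summable_of_ne_finset_zero (hFN N z hN)
  have hfN : ∀ (N : ℕ) (z : E), ‖z‖ < N → f z = ∑ k ∈ Finset.range N, F k z := fun N z hz =>
    tsum_eq_sum (hFN N z hz)
  have hχc : Continuous χ := continuous_iff_continuousAt.2 fun t => (h1 t).continuousAt
  have hFc : ∀ k, Continuous (F k) := by
    intro k
    simp only [hF, blk]
    fun_prop
  have hfc : Continuous f := by
    rw [continuous_iff_continuousAt]
    intro z0
    obtain ⟨N, hN⟩ := exists_nat_gt ‖z0‖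
    have h3 : f =ᶠ[𝓝 z0] fun z => ∑ k ∈ Finset.range N, F k z := by
      have : ∀ᶠ z in 𝓝 z0, ‖z‖ < N := continuous_norm.continuousAt.eventually_lt continuousAt_const hN
      filter_upwards [this] with z hz
      exact hfN N z hz
    exact (ContinuousAt.congr (continuous_finsetSum _ fun k _ => hFc k).continuousAt h3.symm)
  -- the second differences
  have hSD : ∀ x ∈ G, ∀ y ∈ G, ∀ l : ℝ, 0 ≤ l → l ≤ 1 →
      |f (l • x + (1 - l) • y) - l * f x - (1 - l) * f y| ≤ l * (1 - l) * ‖x - y‖ * ‖x - y‖ ^ α := by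
    intro x hx y hy l hl0 hl1
    set R := l * (1 - l) * ‖x - y‖ * ‖x - y‖ ^ α with hR
    have hterm : ∀ k, ‖F k (l • x + (1 - l) • y) - l * F k x - (1 - l) * F k y‖ ≤ R / 2 / 2 ^ k := by
      intro k
      have h3 := est G hGc h0 u hu (Y k) (w k) (hwpos k) (hwY k)
        (fun z hz hz2 => hY0' k (Y k) (hYY0 k) z hz hz2) χ χ' χ'' c hc h1 h2 hb0 hb1 hb2 hs α hα0 hα1
        x y hx hy l hl0 hl1
      have h4 : F k (l • x + (1 - l) • y) - l * F k x - (1 - l) * F k y = (1 / 2) ^ (k + 1) * (A k *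
          (blk u χ (Y k) (l • x + (1 - l) • y) - l * blk u χ (Y k) x - (1 - l) * blk u χ (Y k) y)) := by
        simp only [hF]; ring
      rw [h4, norm_mul, norm_mul, Real.norm_of_nonneg (by positivity), Real.norm_of_nonneg (hApos k).le,
        Real.norm_eq_abs]
      have h5 : A k * |blk u χ (Y k) (l • x + (1 - l) • y) - l * blk u χ (Y k) x -
          (1 - l) * blk u χ (Y k) y| ≤ R := by
        simp only [hA]
        rw [div_mul_eq_mul_div, div_le_iff₀ (by positivity)]
        refine h3.trans (le_of_eq ?_)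
        rw [hR]; ring
      calc (1 / 2 : ℝ) ^ (k + 1) * (A k * _) ≤ (1 / 2 : ℝ) ^ (k + 1) * R := by gcongr
        _ = R / 2 / 2 ^ k := by
          rw [div_pow, one_pow, pow_succ]; field_simp
    have h6 : f (l • x + (1 - l) • y) - l * f x - (1 - l) * f y =
        ∑' k, (F k (l • x + (1 - l) • y) - l * F k x - (1 - l) * F k y) := by
      have e1 := (hsummable (l • x + (1 - l) • y)).hasSum
      have e2 := (hsummable x).hasSum.mul_left l
      have e3 := (hsummable y).hasSum.mul_left (1 - l)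
      exact ((e1.sub e2).sub e3).tsum_eq.symm
    rw [h6, ← Real.norm_eq_abs]
    exact tsum_of_norm_bounded (hasSum_geometric_two' R) hterm
  refine ⟨f, ⟨hfc.continuousOn, ?_⟩, ⟨hfc.neg.continuousOn, ?_⟩, ?_⟩
  · intro x hx y hy l hl0 hl1
    have := (abs_le.1 (hSD x hx y hy l hl0 hl1)).2
    simp only at this ⊢
    linarith
  · intro x hx y hy l hl0 hl1
    have := (abs_le.1 (hSD x hx y hy l hl0 hl1)).1
    simp only at this ⊢
    linarith
  -- not in the class
  rintro ⟨-, K, hK, hbound⟩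
  have hfd0 : fderiv ℝ f 0 = 0 := by
    have h3 : f =ᶠ[𝓝 0] fun _ => (0:ℝ) := by
      filter_upwards [Metric.ball_mem_nhds (0:E) (hYpos 0)] with z hz
      rw [mem_ball_zero_iff] at hz
      simp only [hf]
      rw [tsum_congr (fun k => hF0 k z ?_), tsum_zero]
      rintro ⟨h4, -⟩
      rcases Nat.eq_zero_or_pos k with h5 | h5
      · subst h5; linarith
      · have := hYmono 0 k h5
        have := hYpos 0
        linarith
    rw [h3.fderiv_eq]
    simp
  have key : ∀ k : ℕ, (2:ℝ) ^ k ≤ 168 * c * K := by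
    intro k
    have hYk0 := hYpos k
    -- a point of norm `√(5/2) Y`
    obtain ⟨z, hzG, hz⟩ : ∃ z ∈ G, ‖z‖ = √(5 / 2) * Y k := by
      have h3 : ∃ z ∈ G, √(5 / 2) * Y k < ‖z‖ := by
        by_contra hcon
        push Not at hcon
        exact hub ((Metric.isBounded_closedBall (x := (0:E)) (r := √(5 / 2) * Y k)).subset fun z hz => by
          rw [mem_closedBall_zero_iff]; exact hcon z hz)
      obtain ⟨z, hz, hz2⟩ := h3
      have h4 : 0 < √(5 / 2) * Y k := by positivity
      have h5 : 0 < ‖z‖ := h4.trans hz2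
      refine ⟨(√(5 / 2) * Y k / ‖z‖) • z, hGc.smul_mem_of_zero_mem h0 hz ⟨by positivity, ?_⟩, ?_⟩
      · rw [div_le_one h5]; exact hz2.le
      · rw [norm_smul, Real.norm_of_nonneg (by positivity), div_mul_cancel₀ _ h5.ne']
    have hsq : √(5 / 2) ^ 2 = 5 / 2 := Real.sq_sqrt (by norm_num)
    have hs1 : 1 < √(5 / 2) := by nlinarith [Real.sqrt_nonneg (5 / 2 : ℝ)]
    have hs2 : √(5 / 2) < 2 := by nlinarith [Real.sqrt_nonneg (5 / 2 : ℝ)]
    have hfd : fderiv ℝ f z = ((1 / 2) ^ (k + 1) * A k) • innerSL ℝ u := by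
      have h3 : f =ᶠ[𝓝 z] fun z => ((1 / 2) ^ (k + 1) * A k) • innerSL ℝ u z := by
        have e1 : ∀ᶠ z' in 𝓝 z, Y k < ‖z'‖ :=
          continuousAt_const.eventually_lt continuous_norm.continuousAt (by rw [hz]; nlinarith)
        have e2 : ∀ᶠ z' in 𝓝 z, ‖z'‖ < 2 * Y k :=
          continuous_norm.continuousAt.eventually_lt continuousAt_const (by rw [hz]; nlinarith)
        have e3 : Tendsto (fun z' : E => ‖z'‖ ^ 2 / Y k ^ 2) (𝓝 z) (𝓝 (5 / 2)) := by
          have h4 : Continuous (fun z' : E => ‖z'‖ ^ 2 / Y k ^ 2) := by fun_prop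
          have h5 : ‖z‖ ^ 2 / Y k ^ 2 = 5 / 2 := by
            rw [hz, mul_pow, hsq]; field_simp
          have h6 := h4.tendsto z
          rwa [h5] at h6
        filter_upwards [e1, e2, e3.eventually hone] with z' h4 h5 h6
        simp only [hf]
        rw [tsum_eq_single k]
        · simp only [hF, blk, h6, smul_eq_mul, innerSL_apply_apply]
          ring
        · intro j hj
          apply hF0
          rintro ⟨h7, h8⟩
          rcases lt_or_gt_of_ne hj with h9 | h9
          · have := hYmono j k h9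
            linarith
          · have := hYmono k j h9
            linarith
      rw [h3.fderiv_eq]
      exact (((1 / 2) ^ (k + 1) * A k) • innerSL ℝ u).fderiv
    have h3 := hbound z hzG 0 h0
    rw [hfd, hfd0, sub_zero, norm_smul, innerSL_apply_norm, hu, mul_one,
      Real.norm_of_nonneg (mul_nonneg (by positivity) (hApos k).le), sub_zero, hz] at h3
    have h4 : (√(5 / 2) * Y k) ^ α ≤ 2 * Y k ^ α := by
      rw [Real.mul_rpow (by positivity) hYk0.le]
      have h5 : √(5 / 2) ^ α ≤ 2 := by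
        calc √(5 / 2) ^ α ≤ √(5 / 2) ^ (1:ℝ) := Real.rpow_le_rpow_of_exponent_le hs1.le hα1.le
          _ = √(5 / 2) := Real.rpow_one _
          _ ≤ 2 := hs2.le
      gcongr
    have h5 : A k = 4 ^ k * Y k ^ α / (42 * c) := by
      simp only [hA, hw]
      rw [Real.mul_rpow (hεpos k).le hYk0.le]
      have e1 : ε k ^ (α - 1) = 4 ^ k := by
        simp only [hε]
        rw [← Real.rpow_mul (by norm_num)]
        have : -((k:ℝ) / (1 - α)) * (α - 1) = k := by
          field_simp
          ring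
        rw [this, Real.rpow_natCast]
      have e2 : Y k * (ε k ^ (α - 1) * Y k ^ (α - 1)) = 4 ^ k * Y k ^ α := by
        rw [e1]
        have : Y k ^ (α - 1) * Y k = Y k ^ α := by
          rw [← Real.rpow_add_one hYk0.ne']; congr 1; ring
        rw [← this]; ring
      rw [e2]
    have hYα : 0 < Y k ^ α := Real.rpow_pos_of_pos hYk0 _
    have h6 : (1 / 2 : ℝ) ^ (k + 1) * (4 ^ k * Y k ^ α / (42 * c)) ≤ K * (2 * Y k ^ α) := by
      rw [← h5]
      exact h3.trans (by gcongr)
    have h7 : (1 / 2 : ℝ) ^ (k + 1) * (4 ^ k * Y k ^ α / (42 * c)) = 2 ^ k / (84 * c) * Y k ^ α := by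
      have : (4:ℝ) ^ k = 2 ^ k * 2 ^ k := by rw [← mul_pow]; norm_num
      rw [this, div_pow, one_pow, pow_succ]
      field_simp
      ring
    rw [h7] at h6
    have h8 : 2 ^ k / (84 * c) ≤ 2 * K := by
      have : 2 ^ k / (84 * c) * Y k ^ α ≤ (2 * K) * Y k ^ α := by linarith
      exact le_of_mul_le_mul_right this hYα
    rw [div_le_iff₀ (by positivity)] at h8
    linarith
  obtain ⟨k, hk⟩ := pow_unbounded_of_one_lt (168 * c * K) (by norm_num : (1:ℝ) < 2)
  exact absurd (key k) (not_le.2 hk)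

/-- the positive part for sets not containing `0` -/
lemma pos (G : Set E) (hGo : IsOpen G) (hGc : Convex ℝ G)
    (hub : ¬ Bornology.IsBounded G) (hcf : ConeFree G) (α : ℝ) (hα0 : 0 < α) (hα1 : α < 1) :
    ∃ f : E → ℝ, Semiconvex (fun t => t ^ α) G f ∧ Semiconcave (fun t => t ^ α) G f ∧
      ¬ InC1 (fun t => t ^ α) G f := by
  have hne : G.Nonempty := by
    by_contra h
    rw [Set.not_nonempty_iff_eq_empty] at h
    rw [h] at hub
    exact hub Bornology.isBounded_empty
  obtain ⟨a, ha⟩ := hne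
  set G' : Set E := (fun z => z + a) ⁻¹' G with hG'
  have e1 : IsOpen G' := hGo.preimage (by fun_prop)
  have e2 : Convex ℝ G' := by
    intro x hx y hy s t hs ht hst
    change s • x + t • y + a ∈ G
    have := hGc hx hy hs ht hst
    convert this using 1
    rw [smul_add, smul_add, add_add_add_comm, ← add_smul, hst, one_smul]
  have e3 : (0:E) ∈ G' := by change (0:E) + a ∈ G; rwa [zero_add]
  have e4 : ¬ Bornology.IsBounded G' := by
    intro h
    apply hub
    rw [isBounded_iff_forall_norm_le] at h ⊢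
    obtain ⟨C, hC⟩ := h
    refine ⟨C + ‖a‖, fun x hx => ?_⟩
    have h3 : x - a ∈ G' := by change x - a + a ∈ G; rwa [sub_add_cancel]
    have := hC _ h3
    calc ‖x‖ = ‖(x - a) + a‖ := by rw [sub_add_cancel]
      _ ≤ ‖x - a‖ + ‖a‖ := norm_add_le _ _
      _ ≤ _ := by gcongr
  have e5 : ConeFree G' := by
    rintro ⟨b, C, h1, h2, h3, h4⟩
    refine hcf ⟨b + a, C, h1, h2, h3, fun x hx => ?_⟩
    have : b + x + a ∈ G := h4 x hx
    rwa [add_right_comm] at this
  obtain ⟨f, hf1, hf2, hf3⟩ := pos0 G' e1 e2 e3 e4 e5 α hα0 hα1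
  have hmem : ∀ x, x ∈ G → x - a ∈ G' := by
    intro x hx
    change x - a + a ∈ G
    rwa [sub_add_cancel]
  have htr : ∀ (g : E → ℝ), Semiconvex (fun t => t ^ α) G' g →
      Semiconvex (fun t => t ^ α) G (fun z => g (z - a)) := by
    rintro g ⟨hg1, hg2⟩
    refine ⟨hg1.comp (by fun_prop) fun x hx => hmem x hx, fun x hx y hy l hl0 hl1 => ?_⟩
    have := hg2 (x - a) (hmem x hx) (y - a) (hmem y hy) l hl0 hl1
    have h5 : l • (x - a) + (1 - l) • (y - a) = l • x + (1 - l) • y - a := by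
      rw [smul_sub, smul_sub, sub_smul 1 l a, one_smul]; abel
    rw [h5, sub_sub_sub_cancel_right] at this
    exact this
  refine ⟨fun z => f (z - a), htr f hf1, htr _ hf2, ?_⟩
  rintro ⟨hd, K, hK, hb⟩
  apply hf3
  have hfe : (fun z => (fun z => f (z - a)) (z + a)) = f := by
    funext z; simp
  refine ⟨fun x hx => ?_, K, hK, fun x hx y hy => ?_⟩
  · have h3 : DifferentiableAt ℝ (fun z => f (z - a)) (x + a) := hd (x + a) hx
    have h4 : DifferentiableAt ℝ (fun z : E => z + a) x := by fun_prop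
    have := DifferentiableAt.comp x h3 h4
    have h5 : (fun z => f (z - a)) ∘ (fun z : E => z + a) = f := by funext z; simp
    rwa [h5] at this
  · have h3 : ∀ z, fderiv ℝ f z = fderiv ℝ (fun z => f (z - a)) (z + a) := by
      intro z
      rw [fderiv_comp_sub]
      simp
    rw [h3 x, h3 y]
    have := hb (x + a) hx (y + a) hy
    rwa [add_sub_add_right_eq_sub] at this

end Pool.Agent.Q265.SC
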